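import Mathlib

/-!
Normal linearly Lindelöf spaces from scales: the definitions.
-/

namespace Pool.Agent.Lib.MP_473540_gt

open Cardinal Ordinal Filter Set

/-- uncountable cofinality, in an elementary form (see `big_iff_cof`) -/
def Big (o : Ordinal.{0}) : Prop :=
  0 < o ∧ ∀ a : ℕ → Ordinal.{0}, (∀ k, a k < o) → ∃ b < o, ∀ k, a k < b

/-- `v` is an exact upper bound of `(f β)_{β < δ}` modulo finite: a function is below `v` for almost
all `m` if and only if it is below some `f β`, `β < δ`, for almost all `m` -/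
def Eub (f : Ordinal.{0} → ℕ → Ordinal.{0}) (δ : Ordinal.{0}) (v : ℕ → Ordinal.{0}) : Prop :=
  ∀ h : ℕ → Ordinal.{0},
    (∀ᶠ m in atTop, h m < v m) ↔ ∃ β < δ, ∀ᶠ m in atTop, h m < f β m

/-- `(f α)_{α < lam}` is a scale (increasing and cofinal modulo finite) in the product of the
regular uncountable cardinals `κ 0 < κ 1 < ...`, of regular length `lam` above all `κ n` -/
structure Scale (κ : ℕ → Cardinal.{0}) (lam : Cardinal.{0})
    (f : Ordinal.{0} → ℕ → Ordinal.{0}) : Prop where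
  reg : ∀ n, (κ n).IsRegular
  mono : StrictMono κ
  unc : ℵ₀ < κ 0
  lreg : lam.IsRegular
  lt_lam : ∀ n, κ n < lam
  mem : ∀ α < lam.ord, ∀ n, f α n < (κ n).ord
  inc : ∀ α β, α < β → β < lam.ord → ∀ᶠ n in atTop, f α n < f β n
  cof : ∀ g : ℕ → Ordinal.{0}, (∀ n, g n < (κ n).ord) →
    ∃ α < lam.ord, ∀ᶠ n in atTop, g n < f α n

/-- a scale such that every point of uncountable cofinality has an exact upper bound whose values
have uncountable cofinality -/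
structure EubScale (κ : ℕ → Cardinal.{0}) (lam : Cardinal.{0})
    (f : Ordinal.{0} → ℕ → Ordinal.{0}) : Prop extends Scale κ lam f where
  eub : ∀ δ < lam.ord, ℵ₀ < δ.cof →
    ∃ v : ℕ → Ordinal.{0}, (∀ᶠ m in atTop, ℵ₀ < (v m).cof) ∧ Eub f δ v

/-- Every open cover which is a chain with respect to inclusion has a countable subcover. -/
def LinLindelof (X : Type*) [TopologicalSpace X] : Prop :=
  ∀ 𝒰 : Set (Set X), (∀ U ∈ 𝒰, IsOpen U) → IsChain (· ⊆ ·) 𝒰 → ⋃₀ 𝒰 = Set.univ →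
    ∃ 𝒱 ⊆ 𝒰, 𝒱.Countable ∧ ⋃₀ 𝒱 = Set.univ

/-- the points: functions `y ≤ κ` with values of uncountable cofinality -/
def IsPt (κ : ℕ → Cardinal.{0}) (y : ℕ → Ordinal.{0}) : Prop :=
  ∀ m, y m ≤ (κ m).ord ∧ Big (y m)

/-- a `σ`-ideal of sets of functions -/
structure SIdeal (I : Set (ℕ → Ordinal.{0}) → Prop) : Prop where
  empty : I ∅
  mono : ∀ A B, A ⊆ B → I B → I A
  union : ∀ A : ℕ → Set (ℕ → Ordinal.{0}), (∀ k, I (A k)) → I (⋃ k, A k)

/-- the points of rank at most `δ` -/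
def rk (κ : ℕ → Cardinal.{0}) (f : Ordinal.{0} → ℕ → Ordinal.{0}) (δ : Ordinal.{0}) :
    Set (ℕ → Ordinal.{0}) :=
  {x | IsPt κ x ∧ ∃ δ' ≤ δ, Big δ' ∧ Eub f δ' x}

/-- the condition of the reflection lemma -/
def Star (κ : ℕ → Cardinal.{0}) (n₁ : ℕ) (p : ℕ → Ordinal.{0})
    (𝓗 : Set (Set (ℕ → Ordinal.{0}))) : Prop :=
  ∀ (n : ℕ) (t : ℕ → Ordinal.{0}), (∀ m < n₁, t m < p m) → (∀ m ≥ n₁, t m < (κ m).ord) →
    ∃ q : ℕ → Ordinal.{0}, (∀ m, q m < (κ m).ord) ∧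
      ∀ H ∈ 𝓗, ∃ x ∈ H, (∀ m, t m < x m) ∧ (∀ m < n₁, x m ≤ p m) ∧
        ∀ m, n₁ ≤ m → m < n → x m ≤ q m

end Pool.Agent.Lib.MP_473540_gt
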