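import Mathlib
import Pool.Agent.Lib.MP_473540_gt.Base

section

/-!
Uncountable cofinality and regular cardinals in elementary form.
-/

namespace Pool.Agent.Lib.MP_473540_gt

open Cardinal Ordinal Filter Set

/-- `Big` means uncountable cofinality -/
theorem big_iff_cof {o : Ordinal.{0}} : Big o ↔ ℵ₀ < o.cof := by
  -- `←`: `Ordinal.iSup_add_one_lt_of_lt_cof` for `ι = ℕ`, `b = ⨆ k, a k + 1`.
  -- `→`: if `o.cof ≤ ℵ₀` then there is a countable cofinal set (definition of `cof`, or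
  -- `o.cof = 0`: `o = 0`; `o.cof = 1`: `o` is a successor; `o.cof = ℵ₀`: fundamental sequence),
  -- enumerate it as `a : ℕ → Ordinal`.
  constructor
  · intro h
    by_contra hc
    rw [not_lt] at hc
    obtain ⟨s, hs, hs'⟩ := Order.exists_cof_eq (α := Iio o)
    have h1 : Cardinal.mk s ≤ ℵ₀ := by
      rw [hs', cof_Iio, ← lift_cof]
      exact Cardinal.lift_le_aleph0.mpr hc
    have hsc : s.Countable := (Set.countable_iff_exists_injective.mpr
      (Set.countable_iff_exists_injective.mp (Cardinal.le_aleph0_iff_set_countable.mp h1)))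
    have hne : s.Nonempty := by
      obtain ⟨x, hx, _⟩ := hs ⟨0, h.1⟩
      exact ⟨x, hx⟩
    obtain ⟨f, hf⟩ := hsc.exists_eq_range hne
    obtain ⟨b, hb, hb'⟩ := h.2 (fun k => (f k : Ordinal)) (fun k => (f k).2)
    obtain ⟨x, hx, hx'⟩ := hs ⟨b, hb⟩
    rw [hf] at hx
    obtain ⟨k, rfl⟩ := hx
    exact absurd (hb' k) (not_lt.mpr hx')
  · intro h
    refine ⟨?_, fun a ha => ?_⟩
    · rw [← Ordinal.cof_pos]
      exact lt_trans Cardinal.aleph0_pos h
    · refine ⟨⨆ k, a k + 1, Ordinal.iSup_add_one_lt_of_lt_cof (by simpa using h) ha, fun k => ?_⟩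
      exact Ordinal.lt_iSup_add_one a k

theorem big_ord {c : Cardinal.{0}} (hc : c.IsRegular) (h : ℵ₀ < c) : Big c.ord := by
  -- `big_iff_cof`, `IsRegular.cof_ord`
  rw [big_iff_cof, hc.cof_ord]
  exact h

theorem Big.add_one_lt {o a : Ordinal.{0}} (h : Big o) (ha : a < o) : a + 1 < o := by
  obtain ⟨b, hb, hb'⟩ := h.2 (fun _ => a) (fun _ => ha)
  exact lt_of_le_of_lt (Order.add_one_le_of_lt (hb' 0)) hb

theorem Big.countable {o : Ordinal.{0}} (h : Big o) {ι : Type*} [Countable ι]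
    (a : ι → Ordinal.{0}) (ha : ∀ i, a i < o) : ∃ b < o, ∀ i, a i < b := by
  rcases isEmpty_or_nonempty ι with he | hne
  · exact ⟨0, h.1, fun i => he.elim i⟩
  · obtain ⟨f, hf⟩ := exists_surjective_nat ι
    obtain ⟨b, hb, hb'⟩ := h.2 (fun k => a (f k)) (fun k => ha (f k))
    refine ⟨b, hb, fun i => ?_⟩
    obtain ⟨k, rfl⟩ := hf i
    exact hb' k

theorem exists_of_not_big {o : Ordinal.{0}} (h : ¬ Big o) (ho : 0 < o) :
    ∃ a : ℕ → Ordinal.{0}, (∀ k, a k < o) ∧ ∀ b < o, ∃ k, b ≤ a k := by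
  by_contra hc
  apply h
  refine ⟨ho, fun a ha => ?_⟩
  by_contra hb
  apply hc
  refine ⟨a, ha, fun b hbo => ?_⟩
  by_contra hk
  apply hb
  exact ⟨b, hbo, fun k => lt_of_not_ge fun hle => hk ⟨k, hle⟩⟩

/-- fewer than `c` many ordinals below the regular cardinal `c` are bounded -/
theorem reg_bound {c : Cardinal.{0}} (hc : c.IsRegular) {ι : Type} (hι : #ι < c)
    (a : ι → Ordinal.{0}) (ha : ∀ i, a i < c.ord) : ∃ b < c.ord, ∀ i, a i < b := by
  -- `Ordinal.iSup_add_one_lt_of_lt_cof`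
  exact ⟨⨆ i, a i + 1, Ordinal.iSup_add_one_lt_of_lt_cof (by rwa [hc.cof_ord]) ha,
    fun i => Ordinal.lt_iSup_add_one a i⟩

/-- the same for families indexed by finite sequences of ordinals below a smaller cardinal -/
theorem reg_bound_fun {c d : Cardinal.{0}} (hc : c.IsRegular) (hd : ℵ₀ ≤ d) (hdc : d < c) (n : ℕ)
    (a : (Fin n → Ordinal.{0}) → Ordinal.{0})
    (ha : ∀ t : Fin n → Ordinal.{0}, (∀ i, t i < d.ord) → a t < c.ord) :
    ∃ b < c.ord, ∀ t : Fin n → Ordinal.{0}, (∀ i, t i < d.ord) → a t < b := by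
  -- `reg_bound` for `ι = (Fin n → d.ord.ToType)`, whose cardinality is at most `d`
  -- (`Cardinal.power_nat_le`), with `Ordinal.ToType.mk`
  have hι : #(Fin n → d.ord.ToType) < c := by
    refine lt_of_le_of_lt ?_ hdc
    have h1 : #(Fin n → d.ord.ToType) = d ^ n := by
      simp
    rw [h1]
    exact Cardinal.power_nat_le hd
  obtain ⟨b, hb, hb'⟩ := reg_bound hc hι
    (fun s => a (fun i => ((Ordinal.ToType.mk.symm (s i) : Iio d.ord) : Ordinal)))
    (fun s => ha _ (fun i => (Ordinal.ToType.mk.symm (s i)).2))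
  refine ⟨b, hb, fun t ht => ?_⟩
  have h2 := hb' (fun i => Ordinal.ToType.mk ⟨t i, ht i⟩)
  simpa using h2

end Pool.Agent.Lib.MP_473540_gt
end

section

/-!
Exact upper bounds.
-/

namespace Pool.Agent.Lib.MP_473540_gt

open Cardinal Ordinal Filter Set

theorem le_of_imp {u v : ℕ → Ordinal.{0}} (hu : ∀ᶠ m in atTop, 0 < u m)
    (h : ∀ h : ℕ → Ordinal.{0}, (∀ᶠ m in atTop, h m < u m) → ∀ᶠ m in atTop, h m < v m) :
    ∀ᶠ m in atTop, u m ≤ v m := by
  -- apply `h` to the function which is `v m` if `v m < u m` and `0` otherwise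
  classical
  have h1 := h (fun m => if v m < u m then v m else 0) (by
    filter_upwards [hu] with m hm
    by_cases hc : v m < u m
    · simp [hc]
    · simpa [hc] using hm)
  filter_upwards [h1] with m hm
  by_contra hc
  rw [not_le] at hc
  rw [if_pos hc] at hm
  exact lt_irrefl _ hm

variable {κ : ℕ → Cardinal.{0}} {lam : Cardinal.{0}} {f : Ordinal.{0} → ℕ → Ordinal.{0}}
  {δ δ' : Ordinal.{0}} {v w : ℕ → Ordinal.{0}}

theorem Eub.congr (hv : Eub f δ v) (h : ∀ᶠ m in atTop, v m = w m) : Eub f δ w := by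
  intro g
  rw [← hv g]
  constructor
  · intro hg
    filter_upwards [hg, h] with m h1 h2
    rw [h2]
    exact h1
  · intro hg
    filter_upwards [hg, h] with m h1 h2
    rw [← h2]
    exact h1

theorem Eub.lt (S : Scale κ lam f) (hδ : δ ≤ lam.ord) (hB : Big δ) (hv : Eub f δ v)
    {β : Ordinal.{0}} (hβ : β < δ) : ∀ᶠ m in atTop, f β m < v m := by
  -- `β + 1 < δ` (`Big.add_one_lt`), `f β` is below `f (β + 1)` (`S.inc`)
  have h1 : β + 1 < δ := hB.add_one_lt hβ
  exact (hv (f β)).mpr ⟨β + 1, h1, S.inc β (β + 1) (lt_add_one β) (lt_of_lt_of_le h1 hδ)⟩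

theorem Eub.le (S : Scale κ lam f) (hδ : δ ≤ lam.ord) (hB : Big δ) (h : δ' ≤ δ)
    (h0 : ∀ᶠ m in atTop, 0 < v m) (hv : Eub f δ' v) (hw : Eub f δ w) :
    ∀ᶠ m in atTop, v m ≤ w m := by
  -- `le_of_imp`: `h` below `v` is below `f β` with `β < δ' ≤ δ`, and `f β` is below `w` (`Eub.lt`)
  refine le_of_imp h0 fun g hg => ?_
  obtain ⟨β, hβ, hgβ⟩ := (hv g).mp hg
  filter_upwards [hgβ, Eub.lt S hδ hB hw (lt_of_lt_of_le hβ h)] with m h1 h2
  exact lt_trans h1 h2

theorem Scale.big_lam (S : Scale κ lam f) : Big lam.ord := by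
  -- `big_ord`
  exact Pool.Agent.Lib.MP_473540_gt.big_ord S.lreg (lt_trans S.unc (S.lt_lam 0))

theorem Scale.big_ord (S : Scale κ lam f) (m : ℕ) : Big (κ m).ord := by
  exact Pool.Agent.Lib.MP_473540_gt.big_ord (S.reg m)
    (lt_of_lt_of_le S.unc (S.mono.monotone (Nat.zero_le m)))

/-- the scale is cofinal -/
theorem Scale.eub_top (S : Scale κ lam f) : Eub f lam.ord (fun m => (κ m).ord) := by
  -- `→`: change `h` to `0` at the finitely many places where it is not below, `S.cof`;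
  -- `←`: `S.mem`
  classical
  intro g
  constructor
  · intro hg
    obtain ⟨α, hα, h⟩ := S.cof (fun m => if g m < (κ m).ord then g m else 0) (by
      intro m
      by_cases hc : g m < (κ m).ord
      · simp [hc]
      · simpa only [hc, if_false] using (S.big_ord m).1)
    refine ⟨α, hα, ?_⟩
    filter_upwards [h, hg] with m h1 h2
    have h2' : g m < (κ m).ord := h2
    rw [if_pos h2'] at h1
    exact h1
  · rintro ⟨β, hβ, h⟩
    filter_upwards [h] with m hm
    exact lt_trans hm (S.mem β hβ m)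

theorem EubScale.exists_eub (S : EubScale κ lam f) (hδ : δ ≤ lam.ord) (hB : Big δ) :
    ∃ v : ℕ → Ordinal.{0}, IsPt κ v ∧ Eub f δ v := by
  -- `δ = lam.ord`: `S.eub_top`. `δ < lam.ord`: `S.eub` (`big_iff_cof`) gives `v`; `v ≤ f δ < κ`
  -- for almost all `m` by `le_of_imp` (a function below `v` is below `f β` with `β < δ`, so below
  -- `f δ`; `0 < v m` because its cofinality is not `0`). Change `v m` to `(κ m).ord` at the finitely
  -- many bad places (`Eub.congr`).
  classical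
  rcases hδ.eq_or_lt with rfl | hlt
  · exact ⟨fun m => (κ m).ord, fun m => ⟨le_rfl, S.toScale.big_ord m⟩, S.toScale.eub_top⟩
  · obtain ⟨v, hv1, hv2⟩ := S.eub δ hlt (big_iff_cof.mp hB)
    have hb : ∀ᶠ m in atTop, Big (v m) := hv1.mono fun m hm => big_iff_cof.mpr hm
    have hle : ∀ᶠ m in atTop, v m ≤ (κ m).ord :=
      Eub.le S.toScale le_rfl S.toScale.big_lam hlt.le (hb.mono fun m hm => hm.1) hv2
        S.toScale.eub_top
    refine ⟨fun m => if v m ≤ (κ m).ord ∧ Big (v m) then v m else (κ m).ord, fun m => ?_,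
      hv2.congr ?_⟩
    · by_cases hc : v m ≤ (κ m).ord ∧ Big (v m)
      · simp [hc]
      · simp only [hc, if_false]
        exact ⟨le_rfl, S.toScale.big_ord m⟩
    · filter_upwards [hb, hle] with m h1 h2
      rw [if_pos ⟨h2, h1⟩]

end Pool.Agent.Lib.MP_473540_gt
end
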