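import Mathlib
import Pool.Agent.Lib.MP_473540_gt.EubL

/-!
Good scales have exact upper bounds.
-/

namespace Pool.Agent.Lib.MP_473540_gt

open Cardinal Ordinal Filter Set

variable {κ : ℕ → Cardinal.{0}} {lam : Cardinal.{0}} {f : Ordinal.{0} → ℕ → Ordinal.{0}}

/-- `δ` is a good point of `f`: there are an unbounded subset `A` of `δ` and `n` such that
`α ↦ f α m` is strictly increasing on `A` for all `m ≥ n` -/
def GoodPt (f : Ordinal.{0} → ℕ → Ordinal.{0}) (δ : Ordinal.{0}) : Prop :=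
  ∃ A : Set Ordinal.{0}, A ⊆ Iio δ ∧ (∀ β < δ, ∃ α ∈ A, β < α) ∧
    ∃ n, ∀ m ≥ n, StrictMonoOn (fun α => f α m) A

/-- `(f β)_{β < δ}` has an exact upper bound almost all of whose values have uncountable
cofinality -/
def EubPt (f : Ordinal.{0} → ℕ → Ordinal.{0}) (δ : Ordinal.{0}) : Prop :=
  ∃ v : ℕ → Ordinal.{0}, (∀ᶠ m in atTop, ℵ₀ < (v m).cof) ∧ Eub f δ v

/-- **At a good point of uncountable cofinality there is an exact upper bound.** -/
theorem GoodPt.eubPt (S : Scale κ lam f) {δ : Ordinal.{0}} (hδ : δ < lam.ord) (hcof : ℵ₀ < δ.cof)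
    (hG : GoodPt f δ) : EubPt f δ := by
  -- Let `A`, `n` be as in `GoodPt`, `v m := sSup ((fun α => f α m) '' A)` (bounded by `(κ m).ord`
  -- because of `S.mem`). For `m ≥ n` and `α ∈ A`: `f α m < v m` (take `α' ∈ A` above `α`), and every
  -- `a < v m` is below some `f α m`, `α ∈ A` (`lt_csSup_iff`). `δ` is `Big` (`big_iff_cof`).
  -- `Big (v m)` for `m ≥ n`: given `a k < v m`, take `α k ∈ A` with `a k < f (α k) m`; some `β < δ`
  -- is above all `α k` (`Big δ`), some `β' ∈ A` is above `β`; `b := f β' m`.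
  -- `Eub`: `←`: `β < δ`, some `α ∈ A` is above `β`, `f β < f α` for almost all `m` (`S.inc`) and
  -- `f α m < v m` for `m ≥ n`. `→`: if `h m < v m` for `m ≥ k ≥ n` take `α m ∈ A` with
  -- `h m < f (α m) m` for these `m`; some `β ∈ A` is above all `α m`; `h m < f β m` for `m ≥ k`.
  obtain ⟨A, hAδ, hAun, n, hn⟩ := hG
  have hBδ : Big δ := big_iff_cof.2 hcof
  have hlam : ∀ α ∈ A, α < lam.ord := fun α hα => lt_trans (hAδ hα) hδ
  have hbdd : ∀ m, BddAbove ((fun α => f α m) '' A) := by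
    intro m
    refine ⟨(κ m).ord, ?_⟩
    rintro _ ⟨α, hα, rfl⟩
    exact (S.mem α (hlam α hα) m).le
  obtain ⟨α₀, hα₀, -⟩ := hAun 0 hBδ.1
  have hne : ∀ m, ((fun α => f α m) '' A).Nonempty := fun m => ⟨_, α₀, hα₀, rfl⟩
  let v : ℕ → Ordinal.{0} := fun m => sSup ((fun α => f α m) '' A)
  have hlt : ∀ m ≥ n, ∀ α ∈ A, f α m < v m := by
    intro m hm α hα
    obtain ⟨α', hα', h⟩ := hAun α (hAδ hα)
    exact (hn m hm hα hα' h).trans_le (le_csSup (hbdd m) ⟨α', hα', rfl⟩)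
  have hex : ∀ m, ∀ a < v m, ∃ α ∈ A, a < f α m := by
    intro m a ha
    obtain ⟨_, ⟨α, hα, rfl⟩, h⟩ := exists_lt_of_lt_csSup (hne m) ha
    exact ⟨α, hα, h⟩
  refine ⟨v, ?_, ?_⟩
  · filter_upwards [eventually_ge_atTop n] with m hm
    rw [← big_iff_cof]
    refine ⟨zero_le.trans_lt (hlt m hm α₀ hα₀), ?_⟩
    intro a ha
    choose α hα hα' using fun k => hex m (a k) (ha k)
    obtain ⟨β, hβ, hβ'⟩ := hBδ.2 α (fun k => hAδ (hα k))
    obtain ⟨β', hβA, hβ''⟩ := hAun β hβ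
    exact ⟨f β' m, hlt m hm β' hβA, fun k =>
      (hα' k).trans (hn m hm (hα k) hβA ((hβ' k).trans hβ''))⟩
  · intro h
    constructor
    · intro hh
      obtain ⟨k, hk⟩ := eventually_atTop.1 hh
      have hch : ∀ m, ∃ α ∈ A, m ≥ k → h m < f α m := by
        intro m
        by_cases hm : m ≥ k
        · obtain ⟨α, hα, hα'⟩ := hex m (h m) (hk m hm)
          exact ⟨α, hα, fun _ => hα'⟩
        · exact ⟨α₀, hα₀, fun hc => absurd hc hm⟩
      choose α hα hα' using hch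
      obtain ⟨β, hβ, hβ'⟩ := hBδ.2 α (fun m => hAδ (hα m))
      obtain ⟨β', hβA, hβ''⟩ := hAun β hβ
      refine ⟨β', hAδ hβA, ?_⟩
      filter_upwards [eventually_ge_atTop n, eventually_ge_atTop k] with m hm hmk
      exact (hα' m hmk).trans (hn m hm (hα m) hβA ((hβ' m).trans hβ''))
    · rintro ⟨β, hβ, hh⟩
      obtain ⟨α, hα, hβα⟩ := hAun β hβ
      filter_upwards [hh, S.inc β α hβα (hlam α hα), eventually_ge_atTop n] with m h1 h2 h3
      exact (h1.trans h2).trans (hlt m h3 α hα)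

end Pool.Agent.Lib.MP_473540_gt
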