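import Mathlib
import Pool.Agent.Lib.MP_473540_gt.Base
import Pool.Agent.Lib.MP_473540_gt.EubL
import Pool.Agent.Lib.MP_473540_gt.GoodEub

section

section

/-!
Chains of length `ω₁`.
-/

namespace Pool.Agent.Lib.MP_473540_gt

open Cardinal Ordinal Filter Set

/-- **Chains of length `ω₁`.** If every sequence has an upper bound with respect to `R` then there
is a family indexed by `ω₁` which is increasing with respect to `R`. -/
theorem exists_chain {D : Type*} (d₀ : D) (R : D → D → Prop)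
    (hR : ∀ u : ℕ → D, ∃ v, ∀ k, R (u k) v) :
    ∃ (W : Type) (_ : LinearOrder W) (G : W → D), Nonempty W ∧ #W ≤ ℵ₁ ∧
      (∀ a : ℕ → W, ∃ j, ∀ k, a k < j) ∧ ∀ i j, i < j → R (G i) (G j) := by
  classical
  have hbdd : ∀ a : ℕ → (ℵ₁ : Cardinal.{0}).ord.ToType, ∃ j, ∀ k, a k < j := by
    intro a
    have h1 : ⨆ k, ((a k : Ordinal.{0}) + 1) < (ℵ₁ : Cardinal.{0}).ord := by
      refine Ordinal.iSup_add_one_lt_of_lt_cof ?_ fun k => (a k).toOrd.2
      rw [mk_nat, isRegular_aleph_one.cof_ord]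
      exact aleph0_lt_aleph_one
    refine ⟨Ordinal.ToType.mk ⟨_, h1⟩, fun k => ?_⟩
    rw [← OrderIso.symm_apply_lt]
    show ((Ordinal.ToType.mk.symm (a k)) : Ordinal.{0}) < _
    exact Ordinal.lt_iSup_add_one (fun k => ((a k : Ordinal.{0}))) k
  have hex : ∀ (j : (ℵ₁ : Cardinal.{0}).ord.ToType)
      (rec : ∀ i, i < j → D), ∃ v, ∀ i (hi : i < j), R (rec i hi) v := by
    intro j rec
    have hc : Countable {i // i < j} := by
      have h1 : #(Iio j) < ℵ₁ := by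
        have h3 := mk_Iio_lt j (by rw [mk_ord_toType, Ordinal.type_toType])
        rwa [mk_ord_toType] at h3
      rw [← mk_le_aleph0_iff]
      have h2 := lt_aleph_one_iff.1 h1
      exact h2
    rcases isEmpty_or_nonempty {i // i < j} with he | he
    · exact ⟨d₀, fun i hi => (he.false ⟨i, hi⟩).elim⟩
    · obtain ⟨e, he⟩ := exists_surjective_nat {i // i < j}
      obtain ⟨v, hv⟩ := hR fun k => rec (e k).1 (e k).2
      refine ⟨v, fun i hi => ?_⟩
      obtain ⟨k, hk⟩ := he ⟨i, hi⟩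
      have h1 := hv k
      rw [hk] at h1
      exact h1
  choose F hF using hex
  refine ⟨(ℵ₁ : Cardinal.{0}).ord.ToType, inferInstance,
    WellFounded.fix (r := (· < ·)) wellFounded_lt F, ?_, ?_, hbdd, ?_⟩
  · rw [Ordinal.nonempty_toType_iff, Ne, ord_eq_zero]
    exact aleph_pos _ |>.ne'
  · rw [mk_ord_toType]
  · intro i j hij
    rw [WellFounded.fix_eq _ _ j]
    exact hF j (fun i _ => WellFounded.fix (r := (· < ·)) wellFounded_lt F i) i hij

end Pool.Agent.Lib.MP_473540_gt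
end

section

/-!
Complete accumulation points; transport along homeomorphisms.
-/

namespace Pool.Agent.Lib.MP_473540_gt

open Cardinal Ordinal Filter Set

/-- **Complete accumulation points** of sets of regular uncountable cardinality in linearly
Lindelöf spaces. -/
theorem LinLindelof.exists_cap {X : Type*} [TopologicalSpace X] (hX : LinLindelof X) (A : Set X)
    (hA : (#A).IsRegular) (hA' : ℵ₀ < #A) :
    ∃ x, ∀ U : Set X, IsOpen U → x ∈ U → #↥(U ∩ A) = #A := by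
  -- Otherwise every `x` has an open neighbourhood `U x` with `#(U x ∩ A) < #A`. Enumerate `A` by the
  -- ordinals below `(#A).ord` (`e : A ≃ (#A).ord.ToType`, `mk_ord_toType`). For `α` in
  -- `(#A).ord.ToType` let `V α` be the union of all open `U` with `e a < α` for all `a ∈ U ∩ A`. The
  -- `V α` are an increasing open cover (`#(U x ∩ A) < #A` and `#A` is regular, so `e '' (U x ∩ A)` is
  -- bounded). A countable subcover gives one `α` with `V α = univ` (countable sets are bounded, `#A`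
  -- is regular and uncountable): then `e a < α` for all `a ∈ A`, impossible for `e a = α`.
  by_contra hcon
  push Not at hcon
  obtain ⟨r, wo, hr⟩ := Cardinal.ord_eq A
  obtain ⟨e, he, hes⟩ : ∃ e : A → Ordinal, (∀ a, e a < (#A).ord) ∧
      ∀ o < (#A).ord, ∃ a, e a = o := by
    refine ⟨fun a => Ordinal.typein r a, fun a => ?_, fun o ho => ?_⟩
    · rw [hr]
      exact Ordinal.typein_lt_type r a
    · rw [hr] at ho
      exact Ordinal.typein_surj r ho
  obtain ⟨V, hV⟩ : ∃ V : Ordinal → Set X, V = fun o =>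
      ⋃₀ {U | IsOpen U ∧ ∀ a : A, (a : X) ∈ U → e a ≤ o} := ⟨_, rfl⟩
  have hVmem : ∀ o x, x ∈ V o ↔ ∃ U, (IsOpen U ∧ ∀ a : A, (a : X) ∈ U → e a ≤ o) ∧ x ∈ U := by
    intro o x
    rw [hV]
    exact Set.mem_sUnion
  have hVmono : ∀ o o', o ≤ o' → V o ⊆ V o' := by
    intro o o' hoo x hx
    rw [hVmem] at hx ⊢
    obtain ⟨U, ⟨hU1, hU2⟩, hxU⟩ := hx
    exact ⟨U, ⟨hU1, fun a ha => (hU2 a ha).trans hoo⟩, hxU⟩
  have hVe : ∀ o (a : A), (a : X) ∈ V o → e a ≤ o := by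
    intro o a ha
    rw [hVmem] at ha
    obtain ⟨U, ⟨-, hU2⟩, hxU⟩ := ha
    exact hU2 a hxU
  obtain ⟨𝒱, h𝒱, hcount, hcov⟩ := hX {W | ∃ o < (#A).ord, W = V o} (by
      rintro _ ⟨o, -, rfl⟩
      rw [hV]
      exact isOpen_sUnion fun U hU => hU.1) (by
      rintro _ ⟨o, -, rfl⟩ _ ⟨o', -, rfl⟩ -
      rcases le_total o o' with h | h
      · exact Or.inl (hVmono _ _ h)
      · exact Or.inr (hVmono _ _ h)) (by
      refine Set.eq_univ_of_forall fun x => ?_
      obtain ⟨U, hU, hxU, hne⟩ := hcon x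
      have hlt : #↥(U ∩ A) < #A :=
        lt_of_le_of_ne (Cardinal.mk_le_mk_of_subset Set.inter_subset_right) hne
      have h1 := iSup_lt_ord_of_isRegular hA hlt
        (f := fun z : ↥(U ∩ A) => e ⟨z.1, z.2.2⟩) fun z => he _
      refine Set.mem_sUnion.2 ⟨V (⨆ z : ↥(U ∩ A), e ⟨z.1, z.2.2⟩), ⟨_, h1, rfl⟩, ?_⟩
      rw [hVmem]
      refine ⟨U, ⟨hU, fun a ha => ?_⟩, hxU⟩
      exact Ordinal.le_iSup (fun z : ↥(U ∩ A) => e ⟨z.1, z.2.2⟩) ⟨a.1, ha, a.2⟩)
  choose g hg1 hg2 using fun W : 𝒱 => h𝒱 W.2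
  have hc : #𝒱 < #A := lt_of_le_of_lt (Cardinal.mk_le_aleph0_iff.2 hcount.to_subtype) hA'
  have h2 := iSup_lt_ord_of_isRegular hA hc (f := g) hg1
  have h3 : Order.succ (⨆ W, g W) < (#A).ord :=
    (Cardinal.isSuccLimit_ord hA'.le).succ_lt h2
  obtain ⟨a, ha⟩ := hes _ h3
  have h4 : (a : X) ∈ ⋃₀ 𝒱 := by
    rw [hcov]
    trivial
  obtain ⟨W, hW, haW⟩ := Set.mem_sUnion.1 h4
  have h5 : e a ≤ g ⟨W, hW⟩ := hVe _ _ (by rw [← hg2 ⟨W, hW⟩]; exact haW)
  have h6 : g ⟨W, hW⟩ ≤ ⨆ W, g W := Ordinal.le_iSup g ⟨W, hW⟩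
  rw [ha] at h5
  exact absurd (lt_of_lt_of_le (Order.lt_succ _) (h5.trans h6)) (lt_irrefl _)

theorem LinLindelof.homeo {X : Type*} {Y : Type*} [TopologicalSpace X] [TopologicalSpace Y]
    (φ : X ≃ₜ Y) (hX : LinLindelof X) : LinLindelof Y := by
  -- for a chain `𝒰` in `Y` consider `(fun U => φ ⁻¹' U) '' 𝒰`
  intro 𝒰 hopen hchain hcov
  obtain ⟨𝒱, h𝒱, hcount, hcov'⟩ := hX ((fun U => φ ⁻¹' U) '' 𝒰) (by
      rintro _ ⟨U, hU, rfl⟩
      exact (hopen U hU).preimage φ.continuous) (by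
      rintro _ ⟨U, hU, rfl⟩ _ ⟨U', hU', rfl⟩ hne
      have hne' : U ≠ U' := fun h => hne (by rw [h])
      rcases hchain hU hU' hne' with h | h
      · exact Or.inl (Set.preimage_mono h)
      · exact Or.inr (Set.preimage_mono h)) (by
      refine Set.eq_univ_of_forall fun x => ?_
      have h1 : φ x ∈ ⋃₀ 𝒰 := by
        rw [hcov]
        trivial
      obtain ⟨U, hU, hxU⟩ := Set.mem_sUnion.1 h1
      exact Set.mem_sUnion.2 ⟨_, ⟨U, hU, rfl⟩, hxU⟩)
  refine ⟨(fun U => φ.symm ⁻¹' U) '' 𝒱, ?_, hcount.image _, ?_⟩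
  · rintro _ ⟨W, hW, rfl⟩
    obtain ⟨U, hU, rfl⟩ := h𝒱 hW
    have h2 : φ.symm ⁻¹' (φ ⁻¹' U) = U := by
      ext y
      simp
    show φ.symm ⁻¹' (φ ⁻¹' U) ∈ 𝒰
    rw [h2]
    exact hU
  · refine Set.eq_univ_of_forall fun y => ?_
    have h1 : φ.symm y ∈ ⋃₀ 𝒱 := by
      rw [hcov']
      trivial
    obtain ⟨W, hW, hxW⟩ := Set.mem_sUnion.1 h1
    exact Set.mem_sUnion.2 ⟨_, ⟨W, hW, rfl⟩, hxW⟩

end Pool.Agent.Lib.MP_473540_gt
end

section

/-!
Positive points with respect to a `σ`-ideal.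
-/

namespace Pool.Agent.Lib.MP_473540_gt

open Cardinal Ordinal Filter Set

private theorem sideal_cons {I : Set (ℕ → Ordinal.{0}) → Prop} (hI : SIdeal I)
    {E : Set (ℕ → Ordinal.{0})} {S : ℕ → Set (ℕ → Ordinal.{0})} (hE : I E)
    (hS : ∀ n, I (S n)) : I (E ∪ ⋃ n, S n) := by
  have h1 := hI.union (fun k => Nat.casesOn k E S) (by
    intro k
    cases k with
    | zero => exact hE
    | succ k => exact hS k)
  refine hI.mono _ _ ?_ h1
  intro x hx
  rcases hx with hx | hx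
  · exact mem_iUnion.2 ⟨0, hx⟩
  · obtain ⟨n, hn⟩ := mem_iUnion.1 hx
    exact mem_iUnion.2 ⟨n + 1, hn⟩

/-- the tail is positive -/
theorem exists_tail {I : Set (ℕ → Ordinal.{0}) → Prop} (hI : SIdeal I)
    (A : ℕ → Set (ℕ → Ordinal.{0})) (hA : Monotone A) (hpos : ¬ I (⋃ n, A n))
    (w : ℕ → Ordinal.{0}) (N₀ : ℕ)
    (H : ∀ h : ℕ → Ordinal.{0}, (∀ m ≥ N₀, h m < w m) →
      I {x ∈ ⋃ n, A n | ¬ ∀ᶠ m in atTop, h m < x m}) :
    ∃ n₁ ≥ N₀, ∀ h : ℕ → Ordinal.{0}, (∀ m ≥ n₁, h m < w m) →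
      ¬ I {x ∈ A n₁ | ∀ m ≥ n₁, h m < x m} := by
  by_contra hcon
  push Not at hcon
  choose! h hh1 hh2 using hcon
  obtain ⟨h', hh'⟩ : ∃ h' : ℕ → Ordinal.{0},
      h' = fun m => (Finset.Icc N₀ m).sup (fun n => h n m) := ⟨_, rfl⟩
  have h1 : ∀ m ≥ N₀, h' m < w m := by
    intro m hm
    rw [hh']
    have h2 : h m m < w m := hh1 m hm m le_rfl
    refine (Finset.sup_lt_iff (lt_of_le_of_lt bot_le h2)).2 ?_
    intro n hn
    rw [Finset.mem_Icc] at hn
    exact hh1 n hn.1 m hn.2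
  have h2 := H h' h1
  apply hpos
  refine hI.mono _ _ ?_ (sideal_cons hI h2
    (S := fun n => if N₀ ≤ n then {x ∈ A n | ∀ m ≥ n, h n m < x m} else ∅) ?_)
  · intro x hx
    by_cases hx' : ∀ᶠ m in atTop, h' m < x m
    · right
      obtain ⟨a, ha⟩ := mem_iUnion.1 hx
      obtain ⟨b, hb⟩ := eventually_atTop.1 hx'
      refine mem_iUnion.2 ⟨max a (max b N₀), ?_⟩
      have h3 : N₀ ≤ max a (max b N₀) := le_max_of_le_right (le_max_right _ _)
      change x ∈ (if N₀ ≤ max a (max b N₀) then _ else ∅ : Set (ℕ → Ordinal.{0}))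
      rw [if_pos h3]
      refine ⟨hA (le_max_left _ _) ha, ?_⟩
      intro m hm
      have h4 : h (max a (max b N₀)) m ≤ h' m := by
        rw [hh']
        exact Finset.le_sup (f := fun n => h n m) (Finset.mem_Icc.2 ⟨h3, hm⟩)
      refine lt_of_le_of_lt h4 (hb m ?_)
      exact le_trans (le_max_of_le_right (le_max_left _ _)) hm
    · left
      exact ⟨hx, hx'⟩
  · intro n
    split_ifs with h3
    · exact hh2 n h3
    · exact hI.empty

/-- **A positive point.** -/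
theorem exists_pos {κ : ℕ → Cardinal.{0}} {I : Set (ℕ → Ordinal.{0}) → Prop} (hI : SIdeal I)
    (A : ℕ → Set (ℕ → Ordinal.{0})) (hA : Monotone A) (hpos : ¬ I (⋃ n, A n))
    (hpt : ∀ n, ∀ x ∈ A n, IsPt κ x) (w : ℕ → Ordinal.{0}) (N₀ : ℕ)
    (hw : ∀ m ≥ N₀, Big (w m))
    (H : ∀ h : ℕ → Ordinal.{0}, (∀ m ≥ N₀, h m < w m) →
      I {x ∈ ⋃ n, A n | ¬ ∀ᶠ m in atTop, h m < x m}) :
    ∃ n₁ ≥ N₀, ∃ p : ℕ → Ordinal.{0}, (∀ m < n₁, p m ≤ (κ m).ord ∧ Big (p m)) ∧
      ∀ h : ℕ → Ordinal.{0}, (∀ m < n₁, h m < p m) → (∀ m ≥ n₁, h m < w m) →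
        ¬ I {x ∈ A n₁ | (∀ m < n₁, h m < x m ∧ x m ≤ p m) ∧ ∀ m ≥ n₁, h m < x m} := by
  obtain ⟨n₁, hn₁, ht⟩ := exists_tail hI A hA hpos w N₀ H
  refine ⟨n₁, hn₁, ?_⟩
  obtain ⟨Rset, hRset⟩ : ∃ Rset : (Fin n₁ → Ordinal.{0}) → (ℕ → Ordinal.{0}) →
      Set (ℕ → Ordinal.{0}), Rset = fun p h =>
        {x ∈ A n₁ | (∀ m : Fin n₁, x m ≤ p m) ∧ ∀ m ≥ n₁, h m < x m} := ⟨_, rfl⟩
  have hmem : ∀ p h x, x ∈ Rset p h ↔
      x ∈ A n₁ ∧ (∀ m : Fin n₁, x m ≤ p m) ∧ ∀ m ≥ n₁, h m < x m := by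
    intro p h x
    rw [hRset]
    exact Iff.rfl
  obtain ⟨R, hR⟩ : ∃ R : (Fin n₁ → Ordinal.{0}) → Prop, R = fun p =>
      ∀ h : ℕ → Ordinal.{0}, (∀ m ≥ n₁, h m < w m) → ¬ I (Rset p h) := ⟨_, rfl⟩
  have hR' : ∀ p, R p ↔ ∀ h : ℕ → Ordinal.{0}, (∀ m ≥ n₁, h m < w m) → ¬ I (Rset p h) := by
    intro p
    rw [hR]
  have hκ : R (fun m : Fin n₁ => (κ m).ord) := by
    rw [hR']
    intro h hh hi
    refine ht h hh (hI.mono _ _ ?_ hi)
    rintro x ⟨hx1, hx2⟩
    rw [hmem]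
    exact ⟨hx1, fun m => (hpt n₁ x hx1 m).1, hx2⟩
  obtain ⟨p, ⟨hp1, hp2⟩, hp3⟩ := (wellFounded_lt (α := Fin n₁ → Ordinal.{0})).has_min
    {p | R p ∧ ∀ m : Fin n₁, p m ≤ (κ m).ord} ⟨_, hκ, fun m => le_rfl⟩
  have hwpos : ∀ m ≥ n₁, 0 < w m := fun m hm => (hw m (hn₁.trans hm)).1
  -- minimality
  have hstar : ∀ (m₀ : Fin n₁) (a : Ordinal.{0}), a < p m₀ →
      ∃ h : ℕ → Ordinal.{0}, (∀ m ≥ n₁, h m < w m) ∧
        I {x | x ∈ A n₁ ∧ x m₀ ≤ a ∧ (∀ m : Fin n₁, x m ≤ p m) ∧ ∀ m ≥ n₁, h m < x m} := by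
    intro m₀ a ha
    have h1 : Function.update p m₀ a < p := by
      rw [Pi.lt_def]
      refine ⟨?_, m₀, ?_⟩
      · intro m
        by_cases hm : m = m₀
        · subst hm
          rw [Function.update_self]
          exact ha.le
        · rw [Function.update_of_ne hm]
      · rw [Function.update_self]
        exact ha
    have h2 : ¬ R (Function.update p m₀ a) := by
      intro h2
      exact hp3 _ ⟨h2, fun m => (h1.le m).trans (hp2 m)⟩ h1
    rw [hR'] at h2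
    push Not at h2
    obtain ⟨h, hh1, hh2⟩ := h2
    refine ⟨h, hh1, hI.mono _ _ ?_ hh2⟩
    rintro x ⟨hx1, hx2, hx3, hx4⟩
    rw [hmem]
    refine ⟨hx1, fun m => ?_, hx4⟩
    by_cases hm : m = m₀
    · subst hm
      rw [Function.update_self]
      exact hx2
    · rw [Function.update_of_ne hm]
      exact hx3 m
  have hbig : ∀ m₀ : Fin n₁, Big (p m₀) := by
    intro m₀
    by_contra hnb
    rcases eq_or_ne (p m₀) 0 with h0 | h0
    · refine (hR' p).1 hp1 (fun _ => 0) hwpos ?_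
      refine hI.mono _ _ ?_ hI.empty
      intro x hx
      rw [hmem] at hx
      have h1 := hx.2.1 m₀
      rw [h0] at h1
      exact absurd (hpt n₁ x hx.1 m₀).2.1 (not_lt.2 h1)
    · obtain ⟨a, ha1, ha2⟩ := exists_of_not_big hnb (pos_iff_ne_zero.2 h0)
      choose h hh1 hh2 using fun k => hstar m₀ (a k) (ha1 k)
      have h3 : ∀ m, ∃ b, n₁ ≤ m → b < w m ∧ ∀ k, h k m < b := by
        intro m
        by_cases hm : n₁ ≤ m
        · obtain ⟨b, hb1, hb2⟩ := (hw m (hn₁.trans hm)).2 (fun k => h k m)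
            (fun k => hh1 k m hm)
          exact ⟨b, fun _ => ⟨hb1, hb2⟩⟩
        · exact ⟨0, fun h => absurd h hm⟩
      choose h' hh' using h3
      refine (hR' p).1 hp1 h' (fun m hm => (hh' m hm).1) ?_
      refine hI.mono _ _ ?_ (hI.union _ hh2)
      intro x hx
      rw [hmem] at hx
      have h4 : x m₀ < p m₀ := by
        refine lt_of_le_of_ne (hx.2.1 m₀) ?_
        intro h4
        apply hnb
        rw [← h4]
        exact (hpt n₁ x hx.1 m₀).2
      obtain ⟨k, hk⟩ := ha2 _ h4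
      refine mem_iUnion.2 ⟨k, hx.1, hk, hx.2.1, ?_⟩
      intro m hm
      exact ((hh' m hm).2 k).trans (hx.2.2 m hm)
  refine ⟨fun m => if hm : m < n₁ then p ⟨m, hm⟩ else 0, ?_, ?_⟩
  · intro m hm
    simp only [dif_pos hm]
    exact ⟨hp2 ⟨m, hm⟩, hbig ⟨m, hm⟩⟩
  · intro h hh1 hh2 hi
    choose g hg1 hg2 using fun m₀ : Fin n₁ => hstar m₀ (h m₀) (by
      have := hh1 m₀ m₀.2
      simp only [dif_pos m₀.2] at this
      exact this)
    obtain ⟨h', hh'⟩ : ∃ h' : ℕ → Ordinal.{0},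
        h' = fun m => max (h m) (Finset.univ.sup fun m₀ => g m₀ m) := ⟨_, rfl⟩
    refine (hR' p).1 hp1 h' ?_ ?_
    · intro m hm
      rw [hh']
      refine max_lt (hh2 m hm) ?_
      refine (Finset.sup_lt_iff (lt_of_le_of_lt bot_le (hh2 m hm))).2 ?_
      intro m₀ _
      exact hg1 m₀ m hm
    · refine hI.mono _ _ ?_ (sideal_cons hI hi
        (S := fun k => if hk : k < n₁ then {x | x ∈ A n₁ ∧ x k ≤ h k ∧
          (∀ m : Fin n₁, x m ≤ p m) ∧ ∀ m ≥ n₁, g ⟨k, hk⟩ m < x m} else ∅) ?_)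
      · intro x hx
        rw [hmem] at hx
        by_cases hx' : ∀ m < n₁, h m < x m
        · left
          refine ⟨hx.1, ?_, ?_⟩
          · intro m hm
            simp only [dif_pos hm]
            exact ⟨hx' m hm, hx.2.1 ⟨m, hm⟩⟩
          · intro m hm
            refine lt_of_le_of_lt ?_ (hx.2.2 m hm)
            rw [hh']
            exact le_max_left _ _
        · right
          push Not at hx'
          obtain ⟨m₀, hm₀, hx'⟩ := hx'
          refine mem_iUnion.2 ⟨m₀, ?_⟩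
          simp only [dif_pos hm₀]
          refine ⟨hx.1, hx', hx.2.1, ?_⟩
          intro m hm
          refine lt_of_le_of_lt ?_ (hx.2.2 m hm)
          rw [hh']
          exact le_max_of_le_right
            (Finset.le_sup (f := fun m₀ => g m₀ m) (Finset.mem_univ (⟨m₀, hm₀⟩ : Fin n₁)))
      · intro k
        by_cases hk : k < n₁
        · simp only [dif_pos hk]
          exact hg2 ⟨k, hk⟩
        · simp only [dif_neg hk]
          exact hI.empty

end Pool.Agent.Lib.MP_473540_gt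
end

section

/-!
The topology.
-/

namespace Pool.Agent.Lib.MP_473540_gt

open Cardinal Ordinal Filter Set

/-- the space of all points -/
def Pt (κ : ℕ → Cardinal.{0}) : Type 1 := {y : ℕ → Ordinal.{0} // IsPt κ y}

/-- the basic sets -/
def bx (κ : ℕ → Cardinal.{0}) (y : ℕ → Ordinal.{0}) (n : ℕ) (h : ℕ → Ordinal.{0}) :
    Set (Pt κ) :=
  {x | (∀ m < n, x.1 m ≤ y m) ∧ ∀ m, h m < x.1 m}

/-- A set is open if with `y` it contains some `bx κ y n h` with `h < y`. -/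
instance (κ : ℕ → Cardinal.{0}) : TopologicalSpace (Pt κ) where
  IsOpen U := ∀ y ∈ U, ∃ (n : ℕ) (h : ℕ → Ordinal.{0}), (∀ m, h m < y.1 m) ∧ bx κ y.1 n h ⊆ U
  isOpen_univ := fun y _ => ⟨0, fun _ => 0, fun m => (y.2 m).2.1, fun _ _ => trivial⟩
  isOpen_inter := by
    rintro U V hU hV y ⟨hyU, hyV⟩
    obtain ⟨n, h, hh, hs⟩ := hU y hyU
    obtain ⟨n', h', hh', hs'⟩ := hV y hyV
    refine ⟨max n n', fun m => max (h m) (h' m), fun m => max_lt (hh m) (hh' m), fun x hx => ?_⟩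
    exact ⟨hs ⟨fun m hm => hx.1 m (lt_max_of_lt_left hm),
      fun m => (le_max_left _ _).trans_lt (hx.2 m)⟩,
      hs' ⟨fun m hm => hx.1 m (lt_max_of_lt_right hm),
      fun m => (le_max_right _ _).trans_lt (hx.2 m)⟩⟩
  isOpen_sUnion := by
    rintro s hs y ⟨U, hU, hy⟩
    obtain ⟨n, h, hh, h1⟩ := hs U hU y hy
    exact ⟨n, h, hh, h1.trans (subset_sUnion_of_mem hU)⟩

variable {κ : ℕ → Cardinal.{0}}

theorem isOpen_def {U : Set (Pt κ)} : IsOpen U ↔ ∀ y ∈ U, ∃ (n : ℕ) (h : ℕ → Ordinal.{0}),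
    (∀ m, h m < y.1 m) ∧ bx κ y.1 n h ⊆ U := Iff.rfl

theorem isOpen_bx (y : ℕ → Ordinal.{0}) (n : ℕ) (h : ℕ → Ordinal.{0}) : IsOpen (bx κ y n h) := by
  intro x hx
  exact ⟨n, h, hx.2, fun z hz => ⟨fun m hm => (hz.1 m hm).trans (hx.1 m hm), hz.2⟩⟩

private theorem upd_lt {x : ℕ → Ordinal.{0}} {m : ℕ} {a : Ordinal.{0}} (hx : ∀ k, 0 < x k)
    (ha : a < x m) (k : ℕ) : (if k = m then a else 0) < x k := by
  split_ifs with hk
  · rw [hk]
    exact ha
  · exact hx k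

private theorem upd_self {x : ℕ → Ordinal.{0}} {m : ℕ} {a : Ordinal.{0}}
    (h : (if m = m then a else 0) < x m) : a < x m := by
  rwa [if_pos rfl] at h

theorem isClosed_bx (y : ℕ → Ordinal.{0}) (n : ℕ) (h : ℕ → Ordinal.{0}) :
    IsClosed (bx κ y n h) := by
  rw [← isOpen_compl_iff]
  intro x hx
  by_cases h1 : ∀ m < n, x.1 m ≤ y m
  · have h2 : ∃ m, x.1 m ≤ h m := by
      by_contra hcon
      push Not at hcon
      exact hx ⟨h1, hcon⟩
    obtain ⟨m, hm⟩ := h2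
    refine ⟨m + 1, fun _ => 0, fun k => (x.2 k).2.1, fun z hz hz' => ?_⟩
    exact absurd (hz'.2 m) (not_lt.2 ((hz.1 m (Nat.lt_succ_self m)).trans hm))
  · push Not at h1
    obtain ⟨m, hm, hm'⟩ := h1
    refine ⟨0, fun k => if k = m then y m else 0, upd_lt (fun k => (x.2 k).2.1) hm',
      fun z hz hz' => ?_⟩
    exact absurd (hz'.1 m hm) (not_le.2 (upd_self (hz.2 m)))

theorem mem_closure_def {s : Set (Pt κ)} {y : Pt κ} : y ∈ closure s ↔
    ∀ (n : ℕ) (h : ℕ → Ordinal.{0}), (∀ m, h m < y.1 m) → ∃ x ∈ s, x ∈ bx κ y.1 n h := by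
  rw [mem_closure_iff]
  constructor
  · intro hy n h hh
    obtain ⟨x, hx, hxs⟩ := hy (bx κ y.1 n h) (isOpen_bx _ _ _) ⟨fun _ _ => le_rfl, hh⟩
    exact ⟨x, hxs, hx⟩
  · intro hy o ho hyo
    obtain ⟨n, h, hh, hs⟩ := isOpen_def.1 ho y hyo
    obtain ⟨x, hxs, hx⟩ := hy n h hh
    exact ⟨x, hs hx, hxs⟩

private theorem sep {y y' : Pt κ} {m : ℕ} (hm : y.1 m < y'.1 m) :
    ∃ u v : Set (Pt κ), IsOpen u ∧ IsOpen v ∧ y ∈ u ∧ y' ∈ v ∧ Disjoint u v := by
  refine ⟨bx κ y.1 (m + 1) (fun _ => 0), bx κ y'.1 0 (fun k => if k = m then y.1 m else 0),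
    isOpen_bx _ _ _, isOpen_bx _ _ _, ⟨fun _ _ => le_rfl, fun k => (y.2 k).2.1⟩,
    ⟨fun _ _ => le_rfl, upd_lt (fun k => (y'.2 k).2.1) hm⟩, ?_⟩
  rw [Set.disjoint_left]
  intro z hz hz'
  exact absurd (hz.1 m (Nat.lt_succ_self m)) (not_le.2 (upd_self (hz'.2 m)))

instance : T2Space (Pt κ) := by
  refine ⟨fun y y' hne => ?_⟩
  have hex : ∃ m, y.1 m ≠ y'.1 m := by
    by_contra hcon
    push Not at hcon
    exact hne (Subtype.ext (funext hcon))
  obtain ⟨m, hm⟩ := hex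
  rcases lt_or_gt_of_ne hm with h | h
  · exact sep h
  · obtain ⟨u, v, hu, hv, h1, h2, h3⟩ := sep h
    exact ⟨v, u, hv, hu, h2, h1, h3.symm⟩

instance : RegularSpace (Pt κ) := by
  refine RegularSpace.of_exists_mem_nhds_isClosed_subset fun y s hs => ?_
  obtain ⟨t, hts, ht, hyt⟩ := mem_nhds_iff.1 hs
  obtain ⟨n, h, hh, hb⟩ := isOpen_def.1 ht y hyt
  exact ⟨bx κ y.1 n h, (isOpen_bx _ _ _).mem_nhds ⟨fun _ _ => le_rfl, hh⟩, isClosed_bx _ _ _,
    hb.trans hts⟩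

/-- the space of the points of rank below `lam` -/
def YY (κ : ℕ → Cardinal.{0}) (lam : Cardinal.{0}) (f : Ordinal.{0} → ℕ → Ordinal.{0}) :
    Set (Pt κ) := {y | ∃ δ < lam.ord, Big δ ∧ Eub f δ y.1}

/-- the space of the points of rank at most `lam` -/
def YP (κ : ℕ → Cardinal.{0}) (lam : Cardinal.{0}) (f : Ordinal.{0} → ℕ → Ordinal.{0}) :
    Set (Pt κ) := {y | ∃ δ ≤ lam.ord, Big δ ∧ Eub f δ y.1}

/-- the points of rank `lam` are equal to `κ` for almost all `m` -/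
theorem eq_of_mem_YP {lam : Cardinal.{0}} {f : Ordinal.{0} → ℕ → Ordinal.{0}} (S : Scale κ lam f)
    {y : Pt κ} (hy : y ∈ YP κ lam f) (hy' : y ∉ YY κ lam f) :
    ∀ᶠ m in atTop, y.1 m = (κ m).ord := by
  obtain ⟨δ, hδ, hB, hE⟩ := hy
  have h1 : δ = lam.ord := by
    by_contra hcon
    exact hy' ⟨δ, lt_of_le_of_ne hδ hcon, hB, hE⟩
  subst h1
  have h2 := Eub.le S le_rfl hB le_rfl
    (Eventually.of_forall fun m => (S.big_ord m).1) S.eub_top hE
  filter_upwards [h2] with m hm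
  exact le_antisymm (y.2 m).1 hm

/-- the points of rank below `lam` are below `κ` for almost all `m` -/
theorem lt_of_mem_YY {lam : Cardinal.{0}} {f : Ordinal.{0} → ℕ → Ordinal.{0}} (S : Scale κ lam f)
    {y : Pt κ} (hy : y ∈ YY κ lam f) : ∀ᶠ m in atTop, y.1 m < (κ m).ord := by
  obtain ⟨δ, hδ, hB, hE⟩ := hy
  have h1 : ∀ᶠ m in atTop, y.1 m ≤ f δ m := by
    refine le_of_imp (Eventually.of_forall fun m => (y.2 m).2.1) fun h hh => ?_
    obtain ⟨β, hβ, hβ'⟩ := (hE h).1 hh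
    filter_upwards [hβ', S.inc β δ hβ hδ] with m h2 h3
    exact h2.trans h3
  filter_upwards [h1] with m hm
  exact hm.trans_lt (S.mem δ hδ m)

end Pool.Agent.Lib.MP_473540_gt
end

section

/-!
A positive point of the least possible rank.
-/

namespace Pool.Agent.Lib.MP_473540_gt

open Cardinal Ordinal Filter Set

variable {κ : ℕ → Cardinal.{0}} {lam : Cardinal.{0}} {f : Ordinal.{0} → ℕ → Ordinal.{0}}

/-- **A positive point of the least rank.** -/
theorem exists_least (S : EubScale κ lam f) {I : Set (ℕ → Ordinal.{0}) → Prop} (hI : SIdeal I)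
    {δ₀ : Ordinal.{0}} (hδ₀ : δ₀ ≤ lam.ord) (hpos : ¬ I (rk κ f δ₀)) :
    ∃ δ ≤ δ₀, Big δ ∧ ∃ e : ℕ → Ordinal.{0}, IsPt κ e ∧ Eub f δ e ∧
      ∀ h : ℕ → Ordinal.{0}, (∀ m, h m < e m) →
        ¬ I {x ∈ rk κ f δ | ∀ m, h m < x m ∧ x m ≤ e m} := by
  classical
  -- the least `δ` with a positive set of points of rank at most `δ`
  obtain ⟨δ, hδpos, hδmin⟩ : ∃ δ : Ordinal.{0}, ¬ I (rk κ f δ) ∧ ∀ δ' < δ, I (rk κ f δ') := by
    have hne : {o : Ordinal.{0} | ¬ I (rk κ f o)}.Nonempty := ⟨δ₀, hpos⟩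
    refine ⟨sInf {o : Ordinal.{0} | ¬ I (rk κ f o)}, csInf_mem hne, ?_⟩
    intro δ' hδ'
    by_contra hc
    exact absurd (csInf_le' hc) (not_le.2 hδ')
  have hδδ₀ : δ ≤ δ₀ := by
    by_contra hc
    exact hpos (hδmin δ₀ (not_le.1 hc))
  have hδlam : δ ≤ lam.ord := hδδ₀.trans hδ₀
  have hB : Big δ := by
    by_contra hB
    apply hδpos
    rcases eq_or_ne δ 0 with h0 | h0
    · have hemp : rk κ f δ = ∅ := by
        apply Set.eq_empty_of_forall_notMem
        rintro x ⟨_, δ', hδ', hb, _⟩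
        have h1 := lt_of_lt_of_le hb.1 hδ'
        rw [h0] at h1
        exact absurd h1 (lt_irrefl _)
      rw [hemp]
      exact hI.empty
    · obtain ⟨a, ha, hcof⟩ := exists_of_not_big hB (pos_iff_ne_zero.2 h0)
      refine hI.mono _ _ ?_ (hI.union (fun k => rk κ f (a k)) (fun k => hδmin _ (ha k)))
      rintro x ⟨hx, δ', hδ', hb, he⟩
      have hne : δ' ≠ δ := fun h => hB (h ▸ hb)
      obtain ⟨k, hk⟩ := hcof δ' (lt_of_le_of_ne hδ' hne)
      exact Set.mem_iUnion.2 ⟨k, hx, δ', hk, hb, he⟩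
  obtain ⟨w, hw, hwe⟩ := S.exists_eub hδlam hB
  have hmemU : ∀ x ∈ rk κ f δ, ∃ n, ∀ m ≥ n, x m ≤ w m := by
    rintro x ⟨hx, δ', hδ', hb, he⟩
    have h0 : ∀ᶠ m in atTop, 0 < x m := Filter.Eventually.of_forall (fun m => (hx m).2.1)
    exact Filter.eventually_atTop.1 (Eub.le S.toScale hδlam hB hδ' h0 he hwe)
  have hU : (⋃ n, {x ∈ rk κ f δ | ∀ m ≥ n, x m ≤ w m}) = rk κ f δ := by
    apply Set.Subset.antisymm
    · intro x hx
      obtain ⟨n, hn⟩ := Set.mem_iUnion.1 hx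
      exact hn.1
    · intro x hx
      obtain ⟨n, hn⟩ := hmemU x hx
      exact Set.mem_iUnion.2 ⟨n, hx, hn⟩
  obtain ⟨n₁, -, p, hp, hpp⟩ := exists_pos (κ := κ) hI
    (fun n => {x ∈ rk κ f δ | ∀ m ≥ n, x m ≤ w m})
    (fun a b hab x hx => ⟨hx.1, fun m hm => hx.2 m (le_trans hab hm)⟩)
    (by rw [hU]; exact hδpos) (fun n x hx => hx.1.1) w 0 (fun m _ => (hw m).2) (by
      intro h hh
      obtain ⟨β, hβ, hβ'⟩ := (hwe h).1 (Filter.Eventually.of_forall (fun m => hh m (Nat.zero_le m)))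
      refine hI.mono _ _ ?_ (hδmin β hβ)
      rintro x ⟨hx, hx'⟩
      rw [hU] at hx
      obtain ⟨hx1, δ', hδ', hb, he⟩ := hx
      refine ⟨hx1, δ', ?_, hb, he⟩
      by_contra hc
      apply hx'
      have h2 := Eub.lt S.toScale (hδ'.trans hδlam) hb he (not_le.1 hc)
      filter_upwards [h2, hβ'] with m h3 h4
      exact lt_trans h4 h3)
  refine ⟨δ, hδδ₀, hB, fun m => if m < n₁ then p m else w m, ?_, ?_, ?_⟩
  · intro m
    by_cases hm : m < n₁
    · simp only [hm, if_true]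
      exact hp m hm
    · simp only [hm, if_false]
      exact hw m
  · refine Eub.congr hwe ?_
    filter_upwards [Filter.eventually_ge_atTop n₁] with m hm
    simp only [not_lt.2 hm, if_false]
  · intro h hh hcon
    refine hpp h ?_ ?_ (hI.mono _ _ ?_ hcon)
    · intro m hm
      have := hh m
      simpa only [hm, if_true] using this
    · intro m hm
      have := hh m
      simpa only [not_lt.2 hm, if_false] using this
    · rintro x ⟨hx, hx1, hx2⟩
      refine ⟨hx.1, fun m => ?_⟩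
      by_cases hm : m < n₁
      · simp only [hm, if_true]
        exact hx1 m hm
      · simp only [hm, if_false]
        exact ⟨hx2 m (not_lt.1 hm), hx.2 m (not_lt.1 hm)⟩

end Pool.Agent.Lib.MP_473540_gt
end

section

/-!
Points of cofinality `ω₁` of the scale which are closed under given functions.
-/

namespace Pool.Agent.Lib.MP_473540_gt

open Cardinal Ordinal Filter Set

/-- the limit of a chain -/
theorem limit_of_chain {κ : ℕ → Cardinal.{0}} {lam : Cardinal.{0}}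
    {f : Ordinal.{0} → ℕ → Ordinal.{0}} (S : Scale κ lam f) {W : Type} [LinearOrder W] [Nonempty W]
    (hW : #W ≤ ℵ₁) (hWb : ∀ a : ℕ → W, ∃ j, ∀ k, a k < j) (G : W → ℕ → Ordinal.{0})
    (hGκ : ∀ i m, G i m < (κ m).ord) (hG : ∀ i j, i < j → ∀ m, G i m < G j m)
    (β : W → Ordinal.{0}) (hβ : ∀ i, β i < lam.ord) (hβG : ∀ i, ∀ᶠ m in atTop, G i m < f (β i) m)
    (hβG' : ∀ i j, i < j → ∀ m, f (β i) m < G j m) :
    ∃ δ < lam.ord, Big δ ∧ ∃ χ : ℕ → Ordinal.{0}, IsPt κ χ ∧ Eub f δ χ ∧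
      (∀ i m, G i m < χ m) ∧
      ∀ h : ℕ → Ordinal.{0}, (∀ m, h m < χ m) → ∃ i, ∀ m, h m < G i m := by
  have hmax : ∀ i : W, ∃ j, i < j := fun i => by
    obtain ⟨j, hj⟩ := hWb fun _ => i
    exact ⟨j, hj 0⟩
  let χ : ℕ → Ordinal.{0} := fun m => ⨆ i, G i m
  have hle : ∀ i m, G i m ≤ χ m := fun i m => Ordinal.le_iSup (fun i => G i m) i
  have hlt : ∀ i m, G i m < χ m := fun i m => by
    obtain ⟨j, hj⟩ := hmax i
    exact (hG i j hj m).trans_le (hle j m)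
  have hex : ∀ m a, a < χ m → ∃ i, a < G i m := fun m a ha => Ordinal.lt_iSup_iff.1 ha
  have hall : ∀ h : ℕ → Ordinal.{0}, (∀ m, h m < χ m) → ∃ i, ∀ m, h m < G i m := by
    intro h hh
    choose i hi using fun m => hex m (h m) (hh m)
    obtain ⟨j, hj⟩ := hWb i
    exact ⟨j, fun m => (hi m).trans (hG _ _ (hj m) m)⟩
  have i₀ : W := Classical.arbitrary W
  have hpt : IsPt κ χ := by
    intro m
    refine ⟨Ordinal.iSup_le fun i => (hGκ i m).le, bot_lt_of_lt (hlt i₀ m), fun a ha => ?_⟩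
    choose i hi using fun k => hex m (a k) (ha k)
    obtain ⟨j, hj⟩ := hWb i
    exact ⟨G j m, hlt j m, fun k => (hi k).trans (hG _ _ (hj k) m)⟩
  have hβm : ∀ i j, i < j → β i < β j := by
    intro i j hij
    by_contra hcon
    rw [not_lt] at hcon
    have h1 : ∀ᶠ m in atTop, f (β j) m ≤ f (β i) m := by
      rcases hcon.eq_or_lt with h | h
      · rw [h]
        exact Eventually.of_forall fun m => le_rfl
      · exact (S.inc _ _ h (hβ i)).mono fun m hm => hm.le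
    obtain ⟨m, hm1, hm2⟩ := (h1.and (hβG j)).exists
    exact absurd (hβG' i j hij m) (not_lt.2 (hm2.le.trans hm1))
  let δ : Ordinal.{0} := ⨆ i, β i
  have hδle : ∀ i, β i ≤ δ := fun i => Ordinal.le_iSup β i
  have hδlt : ∀ i, β i < δ := fun i => by
    obtain ⟨j, hj⟩ := hmax i
    exact (hβm i j hj).trans_le (hδle j)
  have hδex : ∀ a, a < δ → ∃ i, a < β i := fun a ha => Ordinal.lt_iSup_iff.1 ha
  have hδlam : δ < lam.ord := by
    have hc : #W < lam := by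
      refine hW.trans_lt (lt_of_le_of_lt ?_ (S.lt_lam 0))
      rw [← Cardinal.succ_aleph0]
      exact Order.succ_le_of_lt S.unc
    obtain ⟨b, hb, hb'⟩ := reg_bound S.lreg hc β hβ
    exact (Ordinal.iSup_le fun i => (hb' i).le).trans_lt hb
  have hδB : Big δ := by
    refine ⟨bot_lt_of_lt (hδlt i₀), fun a ha => ?_⟩
    choose i hi using fun k => hδex (a k) (ha k)
    obtain ⟨j, hj⟩ := hWb i
    exact ⟨β j, hδlt j, fun k => (hi k).trans (hβm _ _ (hj k))⟩
  refine ⟨δ, hδlam, hδB, χ, hpt, fun h => ⟨fun hh => ?_, fun hh => ?_⟩, hlt, hall⟩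
  · classical
    obtain ⟨i, hi⟩ := hall (fun m => if h m < χ m then h m else 0) (fun m => by
      by_cases hm : h m < χ m
      · simp only [if_pos hm]
        exact hm
      · simp only [if_neg hm]
        exact (hpt m).2.1)
    refine ⟨β i, hδlt i, ?_⟩
    filter_upwards [hh, hβG i] with m hm1 hm2
    have h3 := hi m
    simp only [if_pos hm1] at h3
    exact h3.trans hm2
  · obtain ⟨β', hβ', hh'⟩ := hh
    obtain ⟨i, hi⟩ := hδex β' hβ'
    obtain ⟨j, hj⟩ := hmax i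
    filter_upwards [hh', S.inc β' (β i) hi (hβ i)] with m hm1 hm2
    exact (hm1.trans hm2).trans ((hβG' i j hj m).trans (hlt j m))

/-- **Closed points of cofinality `ω₁`.** -/
theorem exists_limit {κ : ℕ → Cardinal.{0}} {lam : Cardinal.{0}}
    {f : Ordinal.{0} → ℕ → Ordinal.{0}} (S : Scale κ lam f)
    (Q : ℕ → (ℕ → Ordinal.{0}) → ℕ → Ordinal.{0})
    (hQ : ∀ n (u : ℕ → Ordinal.{0}), (∀ m, u m < (κ m).ord) → ∀ m, Q n u m < (κ m).ord) :
    ∃ δ < lam.ord, Big δ ∧ ∃ χ : ℕ → Ordinal.{0}, IsPt κ χ ∧ Eub f δ χ ∧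
      ∀ h : ℕ → Ordinal.{0}, (∀ m, h m < χ m) →
        ∃ u : ℕ → Ordinal.{0}, (∀ m, u m < (κ m).ord) ∧ (∀ m, h m < u m) ∧ (∀ m, u m < χ m) ∧
          ∀ n m, Q n u m < χ m := by
  choose! b hb hb' using S.cof
  let R : {u : ℕ → Ordinal.{0} // ∀ m, u m < (κ m).ord} →
      {u : ℕ → Ordinal.{0} // ∀ m, u m < (κ m).ord} → Prop :=
    fun u v => ∀ m, u.1 m < v.1 m ∧ (∀ n, Q n u.1 m < v.1 m) ∧ f (b u.1) m < v.1 m
  obtain ⟨W, iW, G, hne, hW, hWb, hGR⟩ := exists_chain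
    (⟨fun _ => 0, fun m => (S.big_ord m).1⟩ : {u : ℕ → Ordinal.{0} // ∀ m, u m < (κ m).ord}) R
    (fun u => by
      have h1 : ∀ m, ∃ c < (κ m).ord, ∀ k, (u k).1 m < c ∧ (∀ n, Q n (u k).1 m < c) ∧
          f (b (u k).1) m < c := by
        intro m
        obtain ⟨c1, hc1, h1⟩ := (S.big_ord m).countable (fun k : ℕ => (u k).1 m)
          (fun k => (u k).2 m)
        obtain ⟨c2, hc2, h2⟩ := (S.big_ord m).countable (fun k : ℕ × ℕ => Q k.2 (u k.1).1 m)
          (fun k => hQ k.2 _ (u k.1).2 m)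
        obtain ⟨c3, hc3, h3⟩ := (S.big_ord m).countable (fun k : ℕ => f (b (u k).1) m)
          (fun k => S.mem _ (hb _ (u k).2) m)
        refine ⟨max c1 (max c2 c3), max_lt hc1 (max_lt hc2 hc3), fun k => ⟨?_, fun n => ?_, ?_⟩⟩
        · exact (h1 k).trans_le (le_max_left _ _)
        · exact (h2 (k, n)).trans_le ((le_max_left _ _).trans (le_max_right _ _))
        · exact (h3 k).trans_le ((le_max_right _ _).trans (le_max_right _ _))
      choose c hc hc' using h1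
      exact ⟨⟨c, hc⟩, fun k m => hc' m k⟩)
  obtain ⟨δ, hδ, hδB, χ, hχ, hE, hlt, hall⟩ := limit_of_chain S hW hWb (fun i => (G i).1)
    (fun i m => (G i).2 m) (fun i j hij m => (hGR i j hij m).1) (fun i => b (G i).1)
    (fun i => hb _ (G i).2) (fun i => hb' _ (G i).2) (fun i j hij m => (hGR i j hij m).2.2)
  refine ⟨δ, hδ, hδB, χ, hχ, hE, fun h hh => ?_⟩
  obtain ⟨i, hi⟩ := hall h hh
  obtain ⟨j, hj⟩ := hWb fun _ => i
  exact ⟨(G i).1, (G i).2, hi, hlt i, fun n m => ((hGR i j (hj 0) m).2.1 n).trans (hlt j m)⟩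

end Pool.Agent.Lib.MP_473540_gt
end

section

/-!
The reflection lemma.
-/

namespace Pool.Agent.Lib.MP_473540_gt

open Cardinal Ordinal Filter Set

variable {κ : ℕ → Cardinal.{0}} {lam : Cardinal.{0}} {f : Ordinal.{0} → ℕ → Ordinal.{0}}

/-- the bound `q` can be chosen uniformly in the first `n₁` coordinates of `t` -/
theorem uniform_q (S : Scale κ lam f) {n₁ : ℕ} (hn₁ : 1 ≤ n₁) {p : ℕ → Ordinal.{0}}
    (hp : ∀ m < n₁, p m ≤ (κ m).ord) {𝓗 : Set (Set (ℕ → Ordinal.{0}))} (hS : Star κ n₁ p 𝓗)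
    (n : ℕ) (u : ℕ → Ordinal.{0}) (hu : ∀ m, u m < (κ m).ord) :
    ∃ q : ℕ → Ordinal.{0}, (∀ m, q m < (κ m).ord) ∧
      ∀ t : ℕ → Ordinal.{0}, (∀ m < n₁, t m < p m) → (∀ m ≥ n₁, t m = u m) →
        ∀ H ∈ 𝓗, ∃ x ∈ H, (∀ m, t m < x m) ∧ (∀ m < n₁, x m ≤ p m) ∧
          ∀ m, n₁ ≤ m → m < n → x m ≤ q m := by
  classical
  have hκ0 : ∀ m, (0 : Ordinal.{0}) < (κ m).ord := fun m => lt_of_le_of_lt zero_le (hu m)
  set T : (Fin n₁ → Ordinal.{0}) → ℕ → Ordinal.{0} := fun s m =>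
    if h : m < n₁ then s ⟨m, h⟩ else u m with hT
  have hex : ∀ s : Fin n₁ → Ordinal.{0}, ∃ q : ℕ → Ordinal.{0}, (∀ m, q m < (κ m).ord) ∧
      ((∀ i : Fin n₁, s i < p i) → ∀ H ∈ 𝓗, ∃ x ∈ H, (∀ m, T s m < x m) ∧
        (∀ m < n₁, x m ≤ p m) ∧ ∀ m, n₁ ≤ m → m < n → x m ≤ q m) := by
    intro s
    by_cases hs : ∀ i : Fin n₁, s i < p i
    · obtain ⟨q, hq1, hq2⟩ := hS n (T s)
        (fun m hm => by simp only [hT, dif_pos hm]; exact hs ⟨m, hm⟩)
        (fun m hm => by simp only [hT, dif_neg (not_lt.2 hm)]; exact hu m)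
      exact ⟨q, hq1, fun _ => hq2⟩
    · exact ⟨fun _ => 0, hκ0, fun h => absurd h hs⟩
  choose qs hqs1 hqs2 using hex
  have hb : ∀ m, n₁ ≤ m → ∃ b < (κ m).ord, ∀ t : Fin n₁ → Ordinal.{0},
      (∀ i, t i < (κ (n₁ - 1)).ord) → qs t m < b := by
    intro m hm
    refine reg_bound_fun (S.reg m) (S.unc.le.trans (S.mono.monotone (Nat.zero_le _)))
      (S.mono (by omega)) n₁ (fun s => qs s m) fun s _ => hqs1 s m
  choose! b hb1 hb2 using hb
  refine ⟨fun m => if m < n₁ then 0 else b m, fun m => ?_, fun t ht1 ht2 H hH => ?_⟩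
  · by_cases hm : m < n₁
    · simp only [if_pos hm]; exact hκ0 m
    · simp only [if_neg hm]; exact hb1 m (not_lt.1 hm)
  · have hTt : T (fun i => t i) = t := by
      funext m
      by_cases hm : m < n₁
      · simp only [hT, dif_pos hm]
      · simp only [hT, dif_neg hm]; exact (ht2 m (not_lt.1 hm)).symm
    obtain ⟨x, hx, hx1, hx2, hx3⟩ := hqs2 (fun i => t i) (fun i => ht1 i i.2) H hH
    rw [hTt] at hx1
    refine ⟨x, hx, hx1, hx2, fun m hm1 hm2 => ?_⟩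
    simp only [if_neg (not_lt.2 hm1)]
    refine (hx3 m hm1 hm2).trans (hb2 m hm1 _ fun i => ?_).le
    refine (ht1 i i.2).trans_le ((hp i i.2).trans ?_)
    exact Cardinal.ord_le_ord.2 (S.mono.monotone (by have := i.2; omega))

/-- **The reflection lemma**: there is a point of rank below `lam` in the closure of all sets of the
family. -/
theorem reflect (S : Scale κ lam f) {n₁ : ℕ} (hn₁ : 1 ≤ n₁) {p : ℕ → Ordinal.{0}}
    (hp : ∀ m < n₁, p m ≤ (κ m).ord ∧ Big (p m)) {𝓗 : Set (Set (ℕ → Ordinal.{0}))}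
    (hS : Star κ n₁ p 𝓗) :
    ∃ δ < lam.ord, Big δ ∧ ∃ e : ℕ → Ordinal.{0}, IsPt κ e ∧ Eub f δ e ∧
      ∀ H ∈ 𝓗, ∀ (n : ℕ) (h : ℕ → Ordinal.{0}), (∀ m, h m < e m) →
        ∃ x ∈ H, (∀ m < n, x m ≤ e m) ∧ ∀ m, h m < x m := by
  classical
  have hex : ∀ (n : ℕ) (u : ℕ → Ordinal.{0}), ∃ q : ℕ → Ordinal.{0},
      (∀ m, u m < (κ m).ord) → (∀ m, q m < (κ m).ord) ∧
      ∀ t : ℕ → Ordinal.{0}, (∀ m < n₁, t m < p m) → (∀ m ≥ n₁, t m = u m) →
        ∀ H ∈ 𝓗, ∃ x ∈ H, (∀ m, t m < x m) ∧ (∀ m < n₁, x m ≤ p m) ∧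
          ∀ m, n₁ ≤ m → m < n → x m ≤ q m := by
    intro n u
    by_cases hu : ∀ m, u m < (κ m).ord
    · obtain ⟨q, hq1, hq2⟩ := uniform_q S hn₁ (fun m hm => (hp m hm).1) hS n u hu
      exact ⟨q, fun _ => ⟨hq1, hq2⟩⟩
    · exact ⟨fun _ => 0, fun h => absurd h hu⟩
  choose Q hQ using hex
  obtain ⟨δ, hδ, hδB, χ, hχ, hχE, hlim⟩ := exists_limit S Q fun n u hu => (hQ n u hu).1
  refine ⟨δ, hδ, hδB, fun m => if m < n₁ then p m else χ m, fun m => ?_, ?_,
    fun H hH n h hh => ?_⟩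
  · by_cases hm : m < n₁
    · simp only [if_pos hm]; exact hp m hm
    · simp only [if_neg hm]; exact hχ m
  · refine Eub.congr hχE ?_
    filter_upwards [eventually_ge_atTop n₁] with m hm
    rw [if_neg (not_lt.2 hm)]
  · obtain ⟨u, hu1, hu2, hu3, hu4⟩ := hlim (fun m => if m < n₁ then 0 else h m) fun m => by
      by_cases hm : m < n₁
      · simp only [if_pos hm]; exact (hχ m).2.1
      · have := hh m
        simp only [if_neg hm] at this ⊢
        exact this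
    obtain ⟨x, hx, hx1, hx2, hx3⟩ := (hQ n u hu1).2 (fun m => if m < n₁ then h m else u m)
      (fun m hm => by
        have := hh m
        simp only [if_pos hm] at this ⊢
        exact this)
      (fun m hm => by simp only [if_neg (not_lt.2 hm)]) H hH
    refine ⟨x, hx, fun m hm => ?_, fun m => ?_⟩
    · by_cases hm' : m < n₁
      · simp only [if_pos hm']; exact hx2 m hm'
      · simp only [if_neg hm']
        exact (hx3 m (not_lt.1 hm') hm).trans (hu4 n m).le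
    · have h1 := hx1 m
      by_cases hm' : m < n₁
      · simp only [if_pos hm'] at h1; exact h1
      · simp only [if_neg hm'] at h1
        have h2 := hu2 m
        simp only [if_neg hm'] at h2
        exact h2.trans h1

end Pool.Agent.Lib.MP_473540_gt
end

section

/-!
The large space is Lindelöf, the small space is not.
-/

namespace Pool.Agent.Lib.MP_473540_gt

open Cardinal Ordinal Filter Set

variable {κ : ℕ → Cardinal.{0}} {lam : Cardinal.{0}} {f : Ordinal.{0} → ℕ → Ordinal.{0}}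

/-- **The large space is Lindelöf.** -/
theorem isLindelof_YP (S : EubScale κ lam f) : IsLindelof (YP κ lam f) := by
  -- `isLindelof_of_countable_subcover`. Let `U i`, `i ∈ ι`, be an open cover without a countable
  -- subcover and `I A := ∃ t : Set ι, t.Countable ∧ ∀ x : Pt κ, x.1 ∈ A → x ∈ YP κ lam f →
  -- x ∈ ⋃ i ∈ t, U i`, a `σ`-ideal, and `¬ I (rk κ f lam.ord)`. `exists_least` with
  -- `δ₀ = lam.ord` gives a point `e`, in some `U i`, so `bx κ e n h ⊆ U i`, and the set of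
  -- `exists_least` for this `h` is contained in `bx κ e n h`: in `I` with `t = {i}`.
  apply isLindelof_of_countable_subcover
  intro ι U hU hsU
  by_contra hno
  have hI : SIdeal (fun A : Set (ℕ → Ordinal.{0}) => ∃ t : Set ι, t.Countable ∧
      ∀ x : Pt κ, x.1 ∈ A → x ∈ YP κ lam f → x ∈ ⋃ i ∈ t, U i) := by
    refine ⟨⟨∅, Set.countable_empty, fun x hx => absurd hx (Set.notMem_empty _)⟩, ?_, ?_⟩
    · rintro A B hAB ⟨t, ht, h⟩
      exact ⟨t, ht, fun x hx => h x (hAB hx)⟩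
    · intro A hA
      choose t ht h using hA
      refine ⟨⋃ k, t k, Set.countable_iUnion ht, fun x hx hxY => ?_⟩
      obtain ⟨k, hk⟩ := Set.mem_iUnion.1 hx
      obtain ⟨i, hi, hxi⟩ := Set.mem_iUnion₂.1 (h k x hk hxY)
      exact Set.mem_iUnion₂.2 ⟨i, Set.mem_iUnion.2 ⟨k, hi⟩, hxi⟩
  have hpos : ¬ (fun A : Set (ℕ → Ordinal.{0}) => ∃ t : Set ι, t.Countable ∧
      ∀ x : Pt κ, x.1 ∈ A → x ∈ YP κ lam f → x ∈ ⋃ i ∈ t, U i) (rk κ f lam.ord) := by
    rintro ⟨t, ht, h⟩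
    exact hno ⟨t, ht, fun x hx => h x ⟨x.2, hx⟩ hx⟩
  obtain ⟨δ, hδ, hB, e, he, hE, hmain⟩ := exists_least S hI le_rfl hpos
  have hy : (⟨e, he⟩ : Pt κ) ∈ YP κ lam f := ⟨δ, hδ, hB, hE⟩
  obtain ⟨i, hi⟩ := Set.mem_iUnion.1 (hsU hy)
  obtain ⟨n, h, hh, hsub⟩ := isOpen_def.1 (hU i) _ hi
  refine hmain h hh ⟨{i}, Set.countable_singleton i, fun x hx _ => ?_⟩
  refine Set.mem_iUnion₂.2 ⟨i, Set.mem_singleton i, hsub ?_⟩
  exact ⟨fun m _ => (hx.2 m).2, fun m => (hx.2 m).1⟩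

/-- **The small space is not Lindelöf.** -/
theorem not_isLindelof_YY (S : EubScale κ lam f) : ¬ IsLindelof (YY κ lam f) := by
  -- The sets `{x | x.1 m ≤ a}`, `m : ℕ`, `a < (κ m).ord`, are open and cover `YY κ lam f`
  -- (`lt_of_mem_YY`). If countably many `(m k, a k)` suffice, then for every `m` some
  -- `b m < (κ m).ord` is above all `a k` with `m k = m` (`S.big_ord m`, `Big.countable`).
  -- `exists_limit` for `Q n u := b` gives `χ` with `b m < χ m` for all `m` (take `h = 0`, `0 < χ m`),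
  -- a point of `YY κ lam f` in none of the countably many sets.
  intro hL
  have hopen : ∀ p : ℕ × Ordinal.{0},
      IsOpen {x : Pt κ | p.2 < (κ p.1).ord ∧ x.1 p.1 ≤ p.2} := by
    intro p
    rw [isOpen_def]
    rintro y ⟨hy1, hy2⟩
    refine ⟨p.1 + 1, fun _ => 0, fun m => (y.2 m).2.1, fun x hx => ⟨hy1, ?_⟩⟩
    exact (hx.1 p.1 (Nat.lt_succ_self _)).trans hy2
  have hcover : YY κ lam f ⊆
      ⋃ p : ℕ × Ordinal.{0}, {x : Pt κ | p.2 < (κ p.1).ord ∧ x.1 p.1 ≤ p.2} := by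
    intro y hy
    obtain ⟨m, hm⟩ := (lt_of_mem_YY S.toScale hy).exists
    exact Set.mem_iUnion.2 ⟨(m, y.1 m), hm, le_rfl⟩
  obtain ⟨r, hr, hcov⟩ := hL.elim_countable_subcover _ hopen hcover
  have hb : ∀ m : ℕ, ∃ b < (κ m).ord, ∀ p : r, p.1.1 = m → p.1.2 < (κ m).ord →
      p.1.2 < b := by
    intro m
    have := hr.to_subtype
    classical
    obtain ⟨b, hb, h⟩ := (S.toScale.big_ord m).countable
      (fun p : r => if p.1.1 = m ∧ p.1.2 < (κ m).ord then p.1.2 else 0) (by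
        intro p
        split_ifs with h
        · exact h.2
        · exact (S.toScale.big_ord m).1)
    refine ⟨b, hb, fun p h1 h2 => ?_⟩
    have h3 := h p
    rwa [if_pos ⟨h1, h2⟩] at h3
  choose b hbκ hb using hb
  obtain ⟨δ, hδ, hB, χ, hχ, hE, hlim⟩ := exists_limit S.toScale (fun _ _ => b)
    (fun _ _ _ m => hbκ m)
  obtain ⟨u, -, -, -, hu⟩ := hlim (fun _ => 0) (fun m => (hχ m).2.1)
  have hy : (⟨χ, hχ⟩ : Pt κ) ∈ YY κ lam f := ⟨δ, hδ, hB, hE⟩
  obtain ⟨p, hp, h1, h2⟩ := Set.mem_iUnion₂.1 (hcov hy)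
  have h3 := hb p.1 ⟨p, hp⟩ rfl h1
  exact absurd (h2.trans_lt (h3.trans (hu 0 p.1))) (lt_irrefl _)

end Pool.Agent.Lib.MP_473540_gt
end

section

/-!
The small space is linearly Lindelöf.
-/

namespace Pool.Agent.Lib.MP_473540_gt

open Cardinal Ordinal Filter Set

variable {κ : ℕ → Cardinal.{0}} {lam : Cardinal.{0}} {f : Ordinal.{0} → ℕ → Ordinal.{0}}

/-- a chain of sets which is a cover without a countable subcover is countably directed -/
theorem chain_directed {X : Type*} {𝒰 : Set (Set X)} (hc : IsChain (· ⊆ ·) 𝒰)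
    (hcov : ⋃₀ 𝒰 = Set.univ)
    (hno : ¬ ∃ 𝒱 ⊆ 𝒰, 𝒱.Countable ∧ ⋃₀ 𝒱 = Set.univ) (V : ℕ → Set X) (hV : ∀ k, V k ∈ 𝒰) :
    ∃ U ∈ 𝒰, ∀ k, V k ⊆ U := by
  -- the `V k` do not cover `X`: take a point outside of them and `U ∈ 𝒰` which contains it
  have h1 : ⋃₀ (Set.range V) ≠ Set.univ := fun h =>
    hno ⟨Set.range V, by rintro _ ⟨k, rfl⟩; exact hV k, Set.countable_range V, h⟩
  obtain ⟨x, hx⟩ : ∃ x, x ∉ ⋃₀ (Set.range V) := by
    by_contra hc'
    push Not at hc'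
    exact h1 (Set.eq_univ_of_forall hc')
  have hx' : x ∈ ⋃₀ 𝒰 := by rw [hcov]; trivial
  obtain ⟨U, hU, hxU⟩ := hx'
  refine ⟨U, hU, fun k => ?_⟩
  rcases hc.total hU (hV k) with h | h
  · exact absurd ⟨V k, ⟨k, rfl⟩, h hxU⟩ hx
  · exact h

/-- the ideal of a chain -/
theorem chain_ideal {𝒰 : Set (Set ↥(YY κ lam f))} (hc : IsChain (· ⊆ ·) 𝒰)
    (hcov : ⋃₀ 𝒰 = Set.univ) (hno : ¬ ∃ 𝒱 ⊆ 𝒰, 𝒱.Countable ∧ ⋃₀ 𝒱 = Set.univ) :
    SIdeal (fun A => ∃ U ∈ 𝒰, ∀ x : ↥(YY κ lam f), x.1.1 ∈ A → x ∈ U) := by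
  -- `𝒰` is not empty (otherwise `𝒱 = ∅` works); unions: `chain_directed`
  obtain ⟨U₀, hU₀⟩ : 𝒰.Nonempty := by
    rw [Set.nonempty_iff_ne_empty]
    intro h
    exact hno ⟨∅, Set.empty_subset _, Set.countable_empty, by rw [← h]; exact hcov⟩
  refine ⟨⟨U₀, hU₀, fun x hx => absurd hx (Set.notMem_empty _)⟩, ?_, ?_⟩
  · rintro A B hAB ⟨U, hU, h⟩
    exact ⟨U, hU, fun x hx => h x (hAB hx)⟩
  · intro A hA
    choose V hV hVA using hA
    obtain ⟨U, hU, hUV⟩ := chain_directed hc hcov hno V hV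
    refine ⟨U, hU, fun x hx => ?_⟩
    obtain ⟨k, hk⟩ := Set.mem_iUnion.1 hx
    exact hUV k (hVA k x hk)

/-- if all sets of points of bounded rank are in the ideal then the chain is directed for families
indexed by finite sequences of ordinals below `κ n` -/
theorem chain_directed_lam (S : Scale κ lam f) {𝒰 : Set (Set ↥(YY κ lam f))}
    (hc : IsChain (· ⊆ ·) 𝒰)
    (hno : ¬ ∃ 𝒱 ⊆ 𝒰, 𝒱.Countable ∧ ⋃₀ 𝒱 = Set.univ)
    (hI : ∀ δ < lam.ord, ∃ U ∈ 𝒰, ∀ x : ↥(YY κ lam f), x.1.1 ∈ rk κ f δ → x ∈ U) (n : ℕ)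
    (V : (Fin n → Ordinal.{0}) → Set ↥(YY κ lam f)) (hV : ∀ s, V s ∈ 𝒰) :
    ∃ U ∈ 𝒰, ∀ s : Fin n → Ordinal.{0}, (∀ i, s i < (κ n).ord) → V s ⊆ U := by
  -- `V s` is not everything (`{V s}` is not a countable subcover): choose a point `y s` outside of
  -- `V s`, with rank `r s < lam.ord`. `reg_bound_fun` with `c = lam`, `d = κ n` gives
  -- `b < lam.ord` above all `r s`. Take `U` by `hI b`: `y s ∈ U`, so `V s ⊆ U` (`hc`).
  have h1 : ∀ s, ∃ (y : ↥(YY κ lam f)) (r : Ordinal.{0}), y ∉ V s ∧ r < lam.ord ∧ Big r ∧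
      Eub f r y.1.1 := by
    intro s
    obtain ⟨y, hy⟩ : ∃ y, y ∉ V s := by
      by_contra hc'
      push Not at hc'
      refine hno ⟨{V s}, ?_, Set.countable_singleton _, ?_⟩
      · intro W hW
        rw [Set.mem_singleton_iff.1 hW]
        exact hV s
      · rw [Set.sUnion_singleton]
        exact Set.eq_univ_of_forall hc'
    obtain ⟨r, hr, hB, hE⟩ := y.2
    exact ⟨y, r, hy, hr, hB, hE⟩
  choose y r hy hr hB hE using h1
  obtain ⟨b, hb, hb'⟩ := reg_bound_fun S.lreg (S.reg n).aleph0_le (S.lt_lam n) n r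
    (fun s _ => hr s)
  obtain ⟨U, hU, hUb⟩ := hI b hb
  refine ⟨U, hU, fun s hs => ?_⟩
  have h2 : y s ∈ U := hUb (y s) ⟨(y s).1.2, r s, (hb' s hs).le, hB s, hE s⟩
  rcases hc.total hU (hV s) with h | h
  · exact absurd (h h2) (hy s)
  · exact h

/-- **The small space is linearly Lindelöf.** -/
theorem linLindelof_YY (S : EubScale κ lam f) : LinLindelof ↥(YY κ lam f) := by
  -- Let `𝒰` be a chain of open sets which is a cover and suppose it has no countable subcover; let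
  -- `I` be the ideal of `chain_ideal`.
  -- Case 1: `¬ I (rk κ f δ₀)` for some `δ₀ < lam.ord`. `exists_least` gives `δ ≤ δ₀` and `e`, a point
  -- of `YY`, in some `U ∈ 𝒰`, which contains all points of `YY` in `bx κ e n h`, `h < e`; so the set
  -- of `exists_least` for `h` is in `I` (by `U`): contradiction.
  -- Case 2: `I (rk κ f δ)` for all `δ < lam.ord`. `exists_pos` for
  -- `A n := {x | IsPt κ x ∧ (∃ δ < lam.ord, Big δ ∧ Eub f δ x) ∧ ∀ m ≥ n, x m < (κ m).ord}`,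
  -- `w m = (κ m).ord`, `N₀ = 1`. `⋃ n, A n` is the set of all points of `YY` (`lt_of_mem_YY`), not
  -- in `I` because otherwise `{U}` is a countable subcover. Condition `H`: change `h` to `0` at
  -- `m = 0`; `S.cof` gives `β < lam.ord` with `h < f β` for almost all `m`; if the rank of `x` is
  -- above `β` then `f β < x` for almost all `m` (`Eub.lt`); so the bad `x` are in `rk κ f β`.
  -- We get `n₁ ≥ 1` and `p`. `Star κ n₁ p 𝓗` for the family `𝓗` of the sets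
  -- `H U := {x | ∃ y : ↥(YY κ lam f), y.1.1 = x ∧ y ∉ U}`, `U ∈ 𝒰`: let `n`, `t` be given and suppose
  -- that there is no `q`. For `s : Fin n → Ordinal` with `s i < κ i` let `q s m = s m` for `m < n`,
  -- `0` otherwise; there is `V s ∈ 𝒰` such that no `x ∈ H (V s)` has `t < x`, `x m ≤ p m` for
  -- `m < n₁` and `x m ≤ q s m` for `n₁ ≤ m < n` (`V s` any element of `𝒰` for the other `s`).
  -- `chain_directed_lam` gives `U ∈ 𝒰` which contains the `V s` with `s i < κ i` for all `i`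
  -- (`κ i ≤ κ n`). Then every point `x ∈ A n₁` with `t < x` and `x m ≤ p m` for `m < n₁` is in `U`
  -- (take `s i = x i` for `n₁ ≤ i < n` and `0` for `i < n₁`): contradiction to `exists_pos` for
  -- `h = t`.
  -- `reflect` gives a point `e` of `YY` in the closure of all `H U`, `U ∈ 𝒰`. It is in some
  -- `U ∈ 𝒰`, which contains all points of `YY` in some `bx κ e n h`, `h < e`: contradiction.
  classical
  intro 𝒰 hop hc hcov
  by_contra hno
  obtain ⟨I, hIdef⟩ : ∃ I : Set (ℕ → Ordinal.{0}) → Prop,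
      I = fun A => ∃ U ∈ 𝒰, ∀ x : ↥(YY κ lam f), x.1.1 ∈ A → x ∈ U := ⟨_, rfl⟩
  have hI : SIdeal I := by
    rw [hIdef]
    exact chain_ideal hc hcov hno
  have hIm : ∀ A, I A ↔ ∃ U ∈ 𝒰, ∀ x : ↥(YY κ lam f), x.1.1 ∈ A → x ∈ U := by
    intro A
    rw [hIdef]
  have hopen : ∀ U ∈ 𝒰, ∀ e : ↥(YY κ lam f), e ∈ U → ∃ (n : ℕ) (h : ℕ → Ordinal.{0}),
      (∀ m, h m < e.1.1 m) ∧ ∀ x : ↥(YY κ lam f), x.1 ∈ bx κ e.1.1 n h → x ∈ U := by
    intro U hU e he
    obtain ⟨W, hW, hWU⟩ := isOpen_induced_iff.1 (hop U hU)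
    subst hWU
    obtain ⟨n, h, hh, hs⟩ := isOpen_def.1 hW e.1 he
    exact ⟨n, h, hh, fun x hx => hs hx⟩
  have hmemU : ∀ x : ↥(YY κ lam f), ∃ U ∈ 𝒰, x ∈ U := by
    intro x
    have h1 : x ∈ ⋃₀ 𝒰 := by rw [hcov]; trivial
    exact h1
  by_cases hcase : ∀ δ < lam.ord, I (rk κ f δ)
  · obtain ⟨A, hAdef⟩ : ∃ A : ℕ → Set (ℕ → Ordinal.{0}), A = fun n =>
        {x | IsPt κ x ∧ (∃ δ < lam.ord, Big δ ∧ Eub f δ x) ∧ ∀ m ≥ n, x m < (κ m).ord} := ⟨_, rfl⟩
    have hAm : ∀ n x, x ∈ A n ↔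
        IsPt κ x ∧ (∃ δ < lam.ord, Big δ ∧ Eub f δ x) ∧ ∀ m ≥ n, x m < (κ m).ord := by
      intro n x
      rw [hAdef]
      exact Iff.rfl
    have hA : Monotone A := by
      intro a b hab x hx
      rw [hAm] at hx ⊢
      exact ⟨hx.1, hx.2.1, fun m hm => hx.2.2 m (le_trans hab hm)⟩
    have hUn : ∀ x : ↥(YY κ lam f), x.1.1 ∈ ⋃ n, A n := by
      intro x
      obtain ⟨n, hn⟩ := Filter.eventually_atTop.1 (lt_of_mem_YY S.toScale x.2)
      refine Set.mem_iUnion.2 ⟨n, ?_⟩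
      rw [hAm]
      exact ⟨x.1.2, x.2, hn⟩
    have hpos : ¬ I (⋃ n, A n) := by
      rw [hIm]
      rintro ⟨U, hU, h⟩
      refine hno ⟨{U}, ?_, Set.countable_singleton _, ?_⟩
      · intro W hW
        rw [Set.mem_singleton_iff.1 hW]
        exact hU
      · rw [Set.sUnion_singleton]
        exact Set.eq_univ_of_forall fun x => h x (hUn x)
    obtain ⟨n₁, hn₁, p, hp, hpp⟩ := exists_pos (κ := κ) hI A hA hpos
      (fun n x hx => ((hAm n x).1 hx).1) (fun m => (κ m).ord) 1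
      (fun m _ => S.toScale.big_ord m) (by
        intro h hh
        obtain ⟨β, hβ, hβ'⟩ := S.cof (fun m => if m = 0 then 0 else h m) (by
          intro m
          by_cases hm : m = 0
          · simp only [hm, if_true]
            exact (S.toScale.big_ord 0).1
          · simp only [hm, if_false]
            exact hh m (Nat.one_le_iff_ne_zero.2 hm))
        refine hI.mono _ _ ?_ (hcase β hβ)
        rintro x ⟨hx, hx'⟩
        obtain ⟨n, hn⟩ := Set.mem_iUnion.1 hx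
        rw [hAm] at hn
        obtain ⟨hx1, ⟨δ, hδ, hB, hE⟩, hx2⟩ := hn
        refine ⟨hx1, δ, ?_, hB, hE⟩
        by_contra hcon
        apply hx'
        filter_upwards [Eub.lt S.toScale hδ.le hB hE (not_le.1 hcon), hβ',
          Filter.eventually_ge_atTop 1] with m h3 h4 h5
        have h6 : m ≠ 0 := Nat.one_le_iff_ne_zero.1 h5
        simp only [h6, if_false] at h4
        exact lt_trans h4 h3)
    obtain ⟨U₀, hU₀⟩ : 𝒰.Nonempty := by
      rw [Set.nonempty_iff_ne_empty]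
      intro h
      exact hno ⟨∅, Set.empty_subset _, Set.countable_empty, by rw [← h]; exact hcov⟩
    obtain ⟨F, hF⟩ : ∃ F : Set (Set (ℕ → Ordinal.{0})), F =
        {H | ∃ U ∈ 𝒰, H = {x | ∃ y : ↥(YY κ lam f), y.1.1 = x ∧ y ∉ U}} := ⟨_, rfl⟩
    have hStar : Star κ n₁ p F := by
      intro n t ht1 ht2
      by_contra hcon
      have hV : ∀ s : Fin n → Ordinal.{0}, ∃ V ∈ 𝒰, (∀ i : Fin n, s i < (κ i).ord) →
          ∀ y : ↥(YY κ lam f), (∀ m, t m < y.1.1 m) → (∀ m < n₁, y.1.1 m ≤ p m) →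
            (∀ m, n₁ ≤ m → ∀ hm : m < n, y.1.1 m ≤ s ⟨m, hm⟩) → y ∈ V := by
        intro s
        by_cases hs : ∀ i : Fin n, s i < (κ i).ord
        · by_contra hV
          apply hcon
          refine ⟨fun m => if hm : m < n then s ⟨m, hm⟩ else 0, ?_, ?_⟩
          · intro m
            by_cases hm : m < n
            · simp only [hm, dif_pos]
              exact hs ⟨m, hm⟩
            · simp only [hm, dif_neg, not_false_eq_true]
              exact (S.toScale.big_ord m).1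
          · intro H hH
            rw [hF] at hH
            obtain ⟨U, hU, rfl⟩ := hH
            by_contra hc2
            apply hV
            refine ⟨U, hU, fun _ y h1 h2 h3 => ?_⟩
            by_contra hyU
            apply hc2
            refine ⟨y.1.1, ⟨y, rfl, hyU⟩, h1, h2, fun m hm1 hm2 => ?_⟩
            simp only [hm2, dif_pos]
            exact h3 m hm1 hm2
        · exact ⟨U₀, hU₀, fun h => absurd h hs⟩
      choose V hV𝒰 hVp using hV
      obtain ⟨U, hU, hUV⟩ := chain_directed_lam S.toScale hc hno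
        (fun δ hδ => (hIm _).1 (hcase δ hδ)) n V hV𝒰
      refine hpp t ht1 ht2 ((hIm _).2 ⟨U, hU, fun y hy => ?_⟩)
      obtain ⟨hy1, hy2, hy3⟩ := hy
      rw [hAm] at hy1
      have hs : ∀ i : Fin n, (if n₁ ≤ (i : ℕ) then y.1.1 i else 0) < (κ i).ord := by
        intro i
        by_cases hi : n₁ ≤ (i : ℕ)
        · simp only [hi, if_true]
          exact hy1.2.2 i hi
        · simp only [hi, if_false]
          exact (S.toScale.big_ord i).1
      refine hUV (fun i => if n₁ ≤ (i : ℕ) then y.1.1 i else 0) (fun i => ?_)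
        (hVp _ hs y (fun m => ?_) (fun m hm => (hy2 m hm).2) (fun m hm1 hm2 => ?_))
      · exact lt_of_lt_of_le (hs i) (Cardinal.ord_le_ord.2 (S.mono i.2).le)
      · by_cases hm : m < n₁
        · exact (hy2 m hm).1
        · exact hy3 m (not_lt.1 hm)
      · simp only [hm1, if_true]
        exact le_rfl
    obtain ⟨δ, hδ, hB, e, hePt, heE, hcl⟩ := reflect S.toScale hn₁ hp hStar
    have heY : (⟨e, hePt⟩ : Pt κ) ∈ YY κ lam f := ⟨δ, hδ, hB, heE⟩
    obtain ⟨U, hU, heU⟩ := hmemU ⟨⟨e, hePt⟩, heY⟩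
    obtain ⟨n, h, hh, hs⟩ := hopen U hU _ heU
    obtain ⟨x, hxH, hx1, hx2⟩ := hcl {x | ∃ y : ↥(YY κ lam f), y.1.1 = x ∧ y ∉ U}
      (by rw [hF]; exact ⟨U, hU, rfl⟩) n h hh
    obtain ⟨y, hyx, hyU⟩ := hxH
    subst hyx
    exact hyU (hs y ⟨hx1, hx2⟩)
  · push Not at hcase
    obtain ⟨δ₀, hδ₀, hpos⟩ := hcase
    obtain ⟨δ, hδ, hB, e, hePt, heE, hmin⟩ := exists_least S hI hδ₀.le hpos
    have heY : (⟨e, hePt⟩ : Pt κ) ∈ YY κ lam f := ⟨δ, lt_of_le_of_lt hδ hδ₀, hB, heE⟩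
    obtain ⟨U, hU, heU⟩ := hmemU ⟨⟨e, hePt⟩, heY⟩
    obtain ⟨n, h, hh, hs⟩ := hopen U hU _ heU
    exact hmin h hh ((hIm _).2
      ⟨U, hU, fun x hx => hs x ⟨fun m _ => (hx.2 m).2, fun m => (hx.2 m).1⟩⟩)

end Pool.Agent.Lib.MP_473540_gt
end

section

/-!
The small space is normal.
-/

namespace Pool.Agent.Lib.MP_473540_gt

open Cardinal Ordinal Filter Set

variable {κ : ℕ → Cardinal.{0}} {lam : Cardinal.{0}} {f : Ordinal.{0} → ℕ → Ordinal.{0}}

/-- a point of rank `lam` in the closure of `s` is the limit of points of `s` which are below `κ`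
from a fixed coordinate on -/
theorem exists_tail_closure (S : Scale κ lam f) {s : Set (Pt κ)} (hs : s ⊆ YY κ lam f) {z : Pt κ}
    {n₁ : ℕ} (hz₁ : ∀ m ≥ n₁, z.1 m = (κ m).ord) (hz : z ∈ closure s) :
    ∃ N : ℕ, ∀ h : ℕ → Ordinal.{0}, (∀ m, h m < z.1 m) →
      ∃ x ∈ s, (∀ m, x.1 m ≤ z.1 m) ∧ (∀ m, h m < x.1 m) ∧ ∀ m ≥ N, x.1 m < (κ m).ord := by
  -- Otherwise for every `N` there is `h N < z` without such an `x`; let `h' m < z.1 m` be above all
  -- `h N m` (`z.1 m` is `Big`). `mem_closure_def` with `n₁`, `h'` gives `x ∈ s`; `x.1 m ≤ z.1 m` also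
  -- for `m ≥ n₁` (`hz₁`, `x.2`); by `lt_of_mem_YY` there is `N` with `x.1 m < (κ m).ord` for
  -- `m ≥ N`: contradiction to the choice of `h N`.
  by_contra hcon
  push Not at hcon
  choose h hh hno using hcon
  have hb : ∀ m, ∃ b < z.1 m, ∀ N, h N m < b := fun m => (z.2 m).2.2 (fun N => h N m) fun N => hh N m
  choose h' hh' hb using hb
  obtain ⟨x, hx, hx1, hx2⟩ := mem_closure_def.1 hz n₁ h' hh'
  obtain ⟨N, hN⟩ := eventually_atTop.1 (lt_of_mem_YY S (hs hx))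
  obtain ⟨m, hm, hm'⟩ := hno N x hx (fun m => by
    rcases lt_or_ge m n₁ with h1 | h1
    · exact hx1 m h1
    · rw [hz₁ m h1]
      exact (x.2 m).1) (fun m => (hb m N).trans (hx2 m))
  exact absurd (hN m hm) (not_lt.2 hm')

/-- **Sets without common limit points in the small space have no common limit points in the
large space.** -/
theorem closure_disjoint (S : EubScale κ lam f) {s t : Set (Pt κ)} (hs : s ⊆ YY κ lam f)
    (ht : t ⊆ YY κ lam f) (hst : ∀ y ∈ YY κ lam f, ¬ (y ∈ closure s ∧ y ∈ closure t)) :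
    ∀ y ∈ YP κ lam f, ¬ (y ∈ closure s ∧ y ∈ closure t) := by
  -- Let `y` be a counterexample; it is not in `YY`, so `y.1 m = (κ m).ord` for `m ≥ n₁`
  -- (`eq_of_mem_YP`). Let `N`, `N'` be the numbers of `exists_tail_closure` for `s`, `t` and
  -- `n₂ := max (max n₁ 1) (max N N')`. `Star κ n₂ y.1 {val '' s, val '' t}` (the images in
  -- `Set (ℕ → Ordinal)`): the given function `t'` is below `y.1` everywhere; take the two points `x`
  -- of `exists_tail_closure` for it and `q m` the maximum of their values for `m ≥ n₂`, `0` for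
  -- `m < n₂`. `reflect` gives a point of `YY` in both closures (`mem_closure_def`).
  rintro y hy ⟨hys, hyt⟩
  by_cases hyY : y ∈ YY κ lam f
  · exact hst y hyY ⟨hys, hyt⟩
  obtain ⟨n₁, hn₁⟩ := eventually_atTop.1 (eq_of_mem_YP S.toScale hy hyY)
  obtain ⟨N, hN⟩ := exists_tail_closure S.toScale hs hn₁ hys
  obtain ⟨N', hN'⟩ := exists_tail_closure S.toScale ht hn₁ hyt
  have hle1 : n₁ ≤ max (max n₁ 1) (max N N') := (le_max_left _ _).trans (le_max_left _ _)
  have hle2 : 1 ≤ max (max n₁ 1) (max N N') := (le_max_right _ _).trans (le_max_left _ _)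
  have hle3 : N ≤ max (max n₁ 1) (max N N') := (le_max_left _ _).trans (le_max_right _ _)
  have hle4 : N' ≤ max (max n₁ 1) (max N N') := (le_max_right _ _).trans (le_max_right _ _)
  generalize max (max n₁ 1) (max N N') = n₂ at hle1 hle2 hle3 hle4
  have hStar : Star κ n₂ y.1 {(fun x : Pt κ => x.1) '' s, (fun x : Pt κ => x.1) '' t} := by
    intro n u hu1 hu2
    have hu : ∀ m, u m < y.1 m := fun m => by
      rcases lt_or_ge m n₂ with h1 | h1
      · exact hu1 m h1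
      · rw [hn₁ m (hle1.trans h1)]
        exact hu2 m h1
    obtain ⟨x, hx, hx1, hx2, hx3⟩ := hN u hu
    obtain ⟨x', hx', hx1', hx2', hx3'⟩ := hN' u hu
    refine ⟨fun m => if m < n₂ then 0 else max (x.1 m) (x'.1 m), fun m => ?_, ?_⟩
    · show (if m < n₂ then 0 else max (x.1 m) (x'.1 m)) < (κ m).ord
      split_ifs with h1
      · exact (S.toScale.big_ord m).1
      · exact max_lt (hx3 m (hle3.trans (not_lt.1 h1))) (hx3' m (hle4.trans (not_lt.1 h1)))
    · intro H hH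
      rcases hH with rfl | hH
      · refine ⟨x.1, ⟨x, hx, rfl⟩, hx2, fun m _ => hx1 m, fun m h1 _ => ?_⟩
        show x.1 m ≤ if m < n₂ then 0 else max (x.1 m) (x'.1 m)
        rw [if_neg (not_lt.2 h1)]
        exact le_max_left _ _
      · rw [Set.mem_singleton_iff] at hH
        subst hH
        refine ⟨x'.1, ⟨x', hx', rfl⟩, hx2', fun m _ => hx1' m, fun m h1 _ => ?_⟩
        show x'.1 m ≤ if m < n₂ then 0 else max (x.1 m) (x'.1 m)
        rw [if_neg (not_lt.2 h1)]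
        exact le_max_right _ _
  obtain ⟨δ, hδ, hB, e, he, hE, hcl⟩ := reflect S.toScale hle2 (fun m _ => y.2 m) hStar
  refine hst ⟨e, he⟩ ⟨δ, hδ, hB, hE⟩ ⟨?_, ?_⟩
  · rw [mem_closure_def]
    intro n h hh
    obtain ⟨x, ⟨x₀, hx₀, rfl⟩, h1, h2⟩ := hcl _ (Set.mem_insert _ _) n h hh
    exact ⟨x₀, hx₀, h1, h2⟩
  · rw [mem_closure_def]
    intro n h hh
    obtain ⟨x, ⟨x₀, hx₀, rfl⟩, h1, h2⟩ :=
      hcl _ (Set.mem_insert_of_mem _ (Set.mem_singleton _)) n h hh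
    exact ⟨x₀, hx₀, h1, h2⟩

/-- **The small space is normal.** -/
theorem normal_YY (S : EubScale κ lam f) : NormalSpace ↥(YY κ lam f) := by
  -- Let `s`, `t` be disjoint closed subsets of `↥(YY κ lam f)` and `s'`, `t'` their images in
  -- `Pt κ`; for `y : ↥(YY κ lam f)` we have `y.1 ∈ closure s' ↔ y ∈ s` (`closure_subtype`). The sets
  -- of the `y : ↥(YP κ lam f)` with `y.1 ∈ closure s'`, `y.1 ∈ closure t'` are closed and disjoint
  -- (`closure_disjoint`). `↥(YP κ lam f)` is Lindelöf (`isLindelof_YP`,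
  -- `isLindelof_iff_LindelofSpace`) and regular, so normal: the sets have disjoint open
  -- neighbourhoods; take preimages under the inclusion of `YY` in `YP`.
  have hsub : YY κ lam f ⊆ YP κ lam f := fun y hy => by
    obtain ⟨δ, hδ, h⟩ := hy
    exact ⟨δ, hδ.le, h⟩
  have hL : LindelofSpace ↥(YP κ lam f) := isLindelof_iff_lindelofSpace.1 (isLindelof_YP S)
  refine ⟨fun s t hs ht hst => ?_⟩
  have hcl : ∀ u : Set ↥(YY κ lam f), IsClosed u → ∀ y : ↥(YY κ lam f),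
      y.1 ∈ closure ((fun x : ↥(YY κ lam f) => x.1) '' u) → y ∈ u := by
    intro u hu y hy
    rw [← hu.closure_eq]
    exact closure_subtype.2 hy
  have hA : ∀ u : Set ↥(YY κ lam f), IsClosed {y : ↥(YP κ lam f) |
      y.1 ∈ closure ((fun x : ↥(YY κ lam f) => x.1) '' u)} := fun u =>
    isClosed_closure.preimage continuous_subtype_val
  have hdis : Disjoint {y : ↥(YP κ lam f) |
      y.1 ∈ closure ((fun x : ↥(YY κ lam f) => x.1) '' s)} {y : ↥(YP κ lam f) |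
      y.1 ∈ closure ((fun x : ↥(YY κ lam f) => x.1) '' t)} := by
    rw [Set.disjoint_left]
    intro y h1 h2
    refine closure_disjoint S (s := (fun x : ↥(YY κ lam f) => x.1) '' s)
      (t := (fun x : ↥(YY κ lam f) => x.1) '' t) ?_ ?_ ?_ y.1 y.2 ⟨h1, h2⟩
    · rintro _ ⟨x, -, rfl⟩
      exact x.2
    · rintro _ ⟨x, -, rfl⟩
      exact x.2
    · rintro x hx ⟨h3, h4⟩
      exact Set.disjoint_left.1 hst (hcl s hs ⟨x, hx⟩ h3) (hcl t ht ⟨x, hx⟩ h4)
  have hsep := (NormalSpace.of_regularSpace_lindelofSpace (X := ↥(YP κ lam f))).normal _ _ (hA s)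
    (hA t) hdis
  have hcont : Continuous (Set.inclusion hsub) := continuous_inclusion hsub
  refine (hsep.preimage hcont).mono (fun x hx => ?_) (fun x hx => ?_)
  · exact subset_closure ⟨x, hx, rfl⟩
  · exact subset_closure ⟨x, hx, rfl⟩

end Pool.Agent.Lib.MP_473540_gt
end

section

/-!
The main theorem.
-/

namespace Pool.Agent.Lib.MP_473540_gt

open Cardinal Ordinal Filter Set

variable {κ : ℕ → Cardinal.{0}} {lam : Cardinal.{0}} {f : Ordinal.{0} → ℕ → Ordinal.{0}}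

/-- the set of points is small -/
instance small_Pt (κ : ℕ → Cardinal.{0}) : Small.{0} (Pt κ) := by
  refine small_of_injective (β := ∀ m, Set.Iic (κ m).ord) (f := fun y m => ⟨y.1 m, (y.2 m).1⟩) ?_
  intro y z h
  refine Subtype.ext (funext fun m => ?_)
  exact congrArg Subtype.val (congrFun h m)

/-- **Normal linearly Lindelöf spaces which are not Lindelöf.** -/
theorem exists_space (S : EubScale κ lam f) :
    ∃ (X : Type) (_ : TopologicalSpace X), T2Space X ∧ NormalSpace X ∧ LinLindelof X ∧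
      ¬ LindelofSpace X := by
  have φ := Shrink.homeomorph.{0} ↥(YY κ lam f)
  refine ⟨Shrink.{0} ↥(YY κ lam f), inferInstance, ?_, ?_, ?_, ?_⟩
  · exact φ.t2Space
  · have := normal_YY S
    exact φ.normalSpace
  · exact (linLindelof_YY S).homeo φ
  · intro h
    refine not_isLindelof_YY S ?_
    rw [isLindelof_iff_lindelofSpace]
    have h1 : IsLindelof (Set.range φ.symm) := isLindelof_range φ.symm.continuous
    rw [φ.symm.surjective.range_eq] at h1
    exact ⟨h1⟩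

end Pool.Agent.Lib.MP_473540_gt
end
end

section

section

/-!
Points of cofinality above the continuum have exact upper bounds (a closing off argument).
-/

namespace Pool.Agent.Lib.MP_473540_gt

open Cardinal Ordinal Filter Set

/-- the arities -/
private def cArity : Option ℕ → Type
  | none => Empty
  | some _ => ℕ

/-- the evaluation of one step -/
private def cStep (F : ℕ → (ℕ → Ordinal.{0}) → Ordinal.{0}) :
    (Σ a : Option ℕ, cArity a → Ordinal.{0}) → Ordinal.{0}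
  | ⟨none, _⟩ => 0
  | ⟨some k, g⟩ => F k g

/-- closing off under countably many operations with countably many arguments -/
theorem exists_closed (F : ℕ → (ℕ → Ordinal.{0}) → Ordinal.{0}) :
    ∃ (W : Type) (φ : W → Ordinal.{0}), Nonempty W ∧ #W ≤ 𝔠 ∧
      ∀ (k : ℕ) (g : ℕ → W), ∃ w, φ w = F k (fun n => φ (g n)) := by
  refine ⟨WType cArity, WType.elim Ordinal.{0} (cStep F),
    ⟨WType.mk none (fun x : Empty => x.elim)⟩, ?_, ?_⟩
  · refine WType.cardinalMk_le_of_le ?_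
    have h1 : ∀ a : Option ℕ, (𝔠 : Cardinal.{0}) ^ #(cArity a) ≤ 𝔠 := by
      intro a
      rcases a with _ | k
      · have : #(cArity none) = 0 := by
          show #Empty = 0
          exact mk_eq_zero _
        rw [this, power_zero]
        exact one_le_aleph0.trans aleph0_le_continuum
      · have : #(cArity (some k)) = ℵ₀ := by
          show #ℕ = ℵ₀
          exact mk_nat
        rw [this, continuum_power_aleph0]
    calc sum (fun a : Option ℕ => (𝔠 : Cardinal.{0}) ^ #(cArity a))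
        ≤ sum (fun _ : Option ℕ => (𝔠 : Cardinal.{0})) := sum_le_sum _ _ h1
      _ = #(Option ℕ) * 𝔠 := sum_const' _ _
      _ ≤ ℵ₀ * 𝔠 := mul_le_mul' (le_of_eq (by simp)) le_rfl
      _ = 𝔠 := aleph0_mul_continuum
  · intro k g
    exact ⟨WType.mk (some k) g, rfl⟩

variable {κ : ℕ → Cardinal.{0}} {lam : Cardinal.{0}} {f : Ordinal.{0} → ℕ → Ordinal.{0}}

/-- **Points of cofinality above the continuum have exact upper bounds.** -/
theorem exists_eub_of_continuum_lt (S : Scale κ lam f) {δ : Ordinal.{0}} (hδ : δ < lam.ord)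
    (hc : 𝔠 < δ.cof) :
    ∃ v : ℕ → Ordinal.{0}, (∀ᶠ m in atTop, ℵ₀ < (v m).cof) ∧ Eub f δ v := by
  classical
  have hBδ : Big δ := big_iff_cof.2 (aleph0_le_continuum.trans_lt hc)
  -- witnesses
  have hwit : ∀ g : ℕ → Ordinal.{0}, ∃ h : ℕ → Ordinal.{0},
      ¬ (∀ h : ℕ → Ordinal.{0}, (∀ᶠ m in atTop, h m < g m) →
        ∃ β < δ, ∀ᶠ m in atTop, h m < f β m) →
      (∀ᶠ m in atTop, h m < g m) ∧ ¬ ∃ β < δ, ∀ᶠ m in atTop, h m < f β m := by
    intro g
    by_cases hg : ∀ h : ℕ → Ordinal.{0}, (∀ᶠ m in atTop, h m < g m) →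
        ∃ β < δ, ∀ᶠ m in atTop, h m < f β m
    · exact ⟨fun _ => 0, fun h => absurd hg h⟩
    · push Not at hg
      obtain ⟨h, h1, h2⟩ := hg
      refine ⟨h, fun _ => ⟨h1, ?_⟩⟩
      push Not
      exact h2
  choose wit hwit using hwit
  have hseq : ∀ γ : Ordinal.{0}, ∃ a : ℕ → Ordinal.{0}, ¬ Big γ → 0 < γ →
      (∀ k, a k < γ) ∧ ∀ b < γ, ∃ k, b ≤ a k := by
    intro γ
    by_cases hγ : Big γ
    · exact ⟨fun _ => 0, fun h => absurd hγ h⟩
    · by_cases h0 : 0 < γ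
      · obtain ⟨a, ha⟩ := exists_of_not_big hγ h0
        exact ⟨a, fun _ _ => ha⟩
      · exact ⟨fun _ => 0, fun _ h => absurd h h0⟩
  choose seq hseq using hseq
  have hub : ∀ g : ℕ → Ordinal.{0}, ∃ β < δ,
      (¬ ∀ β < δ, ∀ᶠ m in atTop, f β m < g m) → ¬ ∀ᶠ m in atTop, f β m < g m := by
    intro g
    by_cases hg : ∀ β < δ, ∀ᶠ m in atTop, f β m < g m
    · exact ⟨0, hBδ.1, fun h => absurd hg h⟩
    · have hg' := hg
      push Not at hg'
      obtain ⟨β, hβ, h⟩ := hg'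
      refine ⟨β, hβ, fun _ => ?_⟩
      rw [Filter.not_eventually]
      simpa only [not_lt] using h
  choose ub hubδ hub using hub
  obtain ⟨W, φ, ⟨w₀⟩, hW, hφ⟩ := exists_closed (fun k g =>
    if k % 3 = 0 then (κ (k / 3)).ord else if k % 3 = 1 then wit g (k / 3) else seq (g 0) (k / 3))
  have hφκ : ∀ n, ∃ w, φ w = (κ n).ord := by
    intro n
    obtain ⟨w, hw⟩ := hφ (3 * n) (fun _ => w₀)
    refine ⟨w, ?_⟩
    rw [hw, if_pos (by omega)]
    congr 2
    omega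
  have hφwit : ∀ (g : ℕ → W) (n : ℕ), ∃ w, φ w = wit (fun n => φ (g n)) n := by
    intro g n
    obtain ⟨w, hw⟩ := hφ (3 * n + 1) g
    refine ⟨w, ?_⟩
    rw [hw, if_neg (by omega), if_pos (by omega)]
    congr 1
    omega
  have hφseq : ∀ (w' : W) (n : ℕ), ∃ w, φ w = seq (φ w') n := by
    intro w' n
    obtain ⟨w, hw⟩ := hφ (3 * n + 2) (fun _ => w')
    refine ⟨w, ?_⟩
    rw [hw, if_neg (by omega), if_neg (by omega)]
    congr 1
    omega
  -- the bound
  have hcard : #(ℕ → W) ≤ 𝔠 := by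
    rw [← Cardinal.power_def, mk_nat]
    exact (power_le_power_right hW).trans (le_of_eq continuum_power_aleph0)
  obtain ⟨β₁, hβ₁, hβ₁'⟩ : ∃ β₁ < δ, ∀ g : ℕ → W, ub (fun n => φ (g n)) < β₁ := by
    refine ⟨⨆ g : ℕ → W, ub (fun n => φ (g n)) + 1, ?_, fun g => Ordinal.lt_iSup_add_one _ g⟩
    exact Ordinal.iSup_add_one_lt_of_lt_cof (hcard.trans_lt hc) fun g => hubδ _
  -- the exact upper bound
  have hmin : ∀ n, ∃ w, f β₁ n ≤ φ w ∧ ∀ w', f β₁ n ≤ φ w' → φ w ≤ φ w' := by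
    intro n
    obtain ⟨w, hw⟩ := hφκ n
    obtain ⟨w', hw', hw''⟩ := WellFounded.has_min (InvImage.wf φ Ordinal.lt_wf)
      {w | f β₁ n ≤ φ w} ⟨w, by
        rw [mem_ofPred_eq, hw]
        exact (S.mem β₁ (hβ₁.trans hδ) n).le⟩
    exact ⟨w', hw', fun w'' h => not_lt.1 (hw'' w'' h)⟩
  choose g hg₁ hg₂ using hmin
  have hUB : ∀ β < δ, ∀ᶠ m in atTop, f β m < φ (g m) := by
    by_contra hcon
    refine hub _ hcon ?_
    filter_upwards [S.inc _ β₁ (hβ₁' g) (hβ₁.trans hδ)] with m hm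
    exact hm.trans_le (hg₁ m)
  have hEX : ∀ h : ℕ → Ordinal.{0}, (∀ᶠ m in atTop, h m < φ (g m)) →
      ∃ β < δ, ∀ᶠ m in atTop, h m < f β m := by
    by_contra hcon
    obtain ⟨h1, h2⟩ := hwit _ hcon
    refine h2 ⟨β₁, hβ₁, ?_⟩
    filter_upwards [h1] with m hm
    by_contra h3
    obtain ⟨w, hw⟩ := hφwit g m
    have h4 := hg₂ m w (by rw [hw]; exact not_lt.1 h3)
    rw [hw] at h4
    exact absurd hm (not_lt.2 h4)
  refine ⟨fun n => φ (g n), ?_, fun h => ⟨hEX h, ?_⟩⟩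
  · filter_upwards [hUB β₁ hβ₁] with m hm
    rw [← big_iff_cof]
    by_contra hB
    obtain ⟨h1, h2⟩ := hseq _ hB (zero_le.trans_lt hm)
    obtain ⟨k, hk⟩ := h2 _ hm
    obtain ⟨w, hw⟩ := hφseq (g m) k
    have h4 := hg₂ m w (by rw [hw]; exact hk)
    rw [hw] at h4
    exact absurd (h1 k) (not_lt.2 h4)
  · rintro ⟨β, hβ, h1⟩
    filter_upwards [h1, hUB β hβ] with m hm hm'
    exact hm.trans hm'

end Pool.Agent.Lib.MP_473540_gt
end

section

/-!
Scales all of whose points of cofinality between `ω₁` and the continuum are good.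
-/

namespace Pool.Agent.Lib.MP_473540_gt

open Cardinal Ordinal Filter Set

variable {κ : ℕ → Cardinal.{0}} {lam : Cardinal.{0}} {f : Ordinal.{0} → ℕ → Ordinal.{0}}

/-- only the points of cofinality at most the continuum matter -/
theorem Scale.toEubScale (S : Scale κ lam f)
    (h : ∀ δ < lam.ord, ℵ₀ < δ.cof → δ.cof ≤ 𝔠 → GoodPt f δ ∨ EubPt f δ) :
    EubScale κ lam f := by
  refine { S with eub := fun δ hδ hc => ?_ }
  by_cases h1 : δ.cof ≤ 𝔠
  · rcases h δ hδ hc h1 with h2 | h2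
    · exact h2.eubPt S hδ hc
    · exact h2
  · exact exists_eub_of_continuum_lt S hδ (not_le.1 h1)

end Pool.Agent.Lib.MP_473540_gt
end

section

/-!
It is enough that the scale is good on a closed unbounded set.
-/

namespace Pool.Agent.Lib.MP_473540_gt

open Cardinal Ordinal Filter Set

variable {κ : ℕ → Cardinal.{0}} {lam : Cardinal.{0}} {f : Ordinal.{0} → ℕ → Ordinal.{0}}

/-- the enumeration of a closed unbounded set -/
theorem exists_enum (hlam : lam.IsRegular) {E : Set Ordinal.{0}}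
    (hE : ∀ α < lam.ord, ∃ β ∈ E, α < β ∧ β < lam.ord)
    (hE' : ∀ δ < lam.ord, δ ≠ 0 → (∀ α < δ, ∃ β ∈ E, α < β ∧ β < δ) → δ ∈ E) :
    ∃ c : Ordinal.{0} → Ordinal.{0}, Order.IsNormal c ∧ (∀ α, α ≤ c α) ∧
      ∀ α < lam.ord, c α < lam.ord ∧ c α ∈ E := by
  obtain ⟨s, hs⟩ : ∃ s : Set Ordinal.{0}, s = {o | (o ∈ E ∧ o < lam.ord) ∨ lam.ord ≤ o} :=
    ⟨_, rfl⟩
  have hmem : ∀ o, o ∈ s ↔ (o ∈ E ∧ o < lam.ord) ∨ lam.ord ≤ o := by
    intro o
    rw [hs]
    rfl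
  have hunb : ¬ BddAbove s := by
    rintro ⟨b, hb⟩
    have h1 : max b lam.ord + 1 ∈ s := (hmem _).2 (Or.inr ((le_max_right _ _).trans le_self_add))
    have h2 := hb h1
    have h3 : max b lam.ord < max b lam.ord + 1 := lt_add_one _
    exact absurd ((le_max_left _ _).trans_lt h3) (not_lt.2 h2)
  have hcl : ∀ t ⊆ s, t.Nonempty → BddAbove t → sSup t ∈ s := by
    intro t ht hne hbd
    rw [hmem]
    by_cases h1 : lam.ord ≤ sSup t
    · exact Or.inr h1
    rw [not_le] at h1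
    refine Or.inl ⟨?_, h1⟩
    by_cases h2 : sSup t ∈ t
    · exact (((hmem _).1 (ht h2)).resolve_right (not_le.2 h1)).1
    refine hE' _ h1 ?_ fun α hα => ?_
    · intro h3
      obtain ⟨x, hx⟩ := hne
      have h4 : x ≤ sSup t := le_csSup hbd hx
      rw [h3, nonpos_iff_eq_zero] at h4
      rw [h3] at h2
      exact h2 (h4 ▸ hx)
    · obtain ⟨β, hβ, hαβ⟩ := exists_lt_of_lt_csSup hne hα
      have h3 : β < sSup t := lt_of_le_of_ne (le_csSup hbd hβ) fun h => h2 (h ▸ hβ)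
      exact ⟨β, (((hmem _).1 (ht hβ)).resolve_right (not_le.2 (h3.trans h1))).1, hαβ, h3⟩
  refine ⟨enumOrd s, isNormal_enumOrd hcl hunb, fun α => le_enumOrd_self hunb, ?_⟩
  intro α
  induction α using WellFoundedLT.induction with
  | ind α ih =>
    intro hα
    have h1 : #α.ToType < lam := by
      rw [mk_toType]
      exact lt_ord.1 hα
    obtain ⟨b, hb, hb'⟩ := reg_bound hlam h1 (fun i => enumOrd s (i : Ordinal.{0}))
      (fun i => (ih _ i.toOrd.2 (i.toOrd.2.trans hα)).1)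
    obtain ⟨β, hβE, hbβ, hβ⟩ := hE b hb
    have h2 : enumOrd s α ≤ β := by
      refine enumOrd_le_of_forall_lt ((hmem β).2 (Or.inl ⟨hβE, hβ⟩)) fun γ hγ => ?_
      have h3 := hb' (Ordinal.ToType.mk ⟨γ, hγ⟩)
      have h4 : ((Ordinal.ToType.mk ⟨γ, hγ⟩ : α.ToType) : Ordinal.{0}) = γ := by
        show ((Ordinal.ToType.mk.symm (Ordinal.ToType.mk ⟨γ, hγ⟩) : Iio α) : Ordinal.{0}) = γ
        rw [OrderIso.symm_apply_apply]
      rw [h4] at h3
      exact h3.trans hbβ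
    have h5 : enumOrd s α < lam.ord := h2.trans_lt hβ
    exact ⟨h5, (((hmem _).1 (enumOrd_mem hunb α)).resolve_right (not_le.2 h5)).1⟩

/-- **A scale which is good on a closed unbounded set can be thinned out.** -/
theorem Scale.exists_eubScale (S : Scale κ lam f) {E : Set Ordinal.{0}}
    (hE : ∀ α < lam.ord, ∃ β ∈ E, α < β ∧ β < lam.ord)
    (hE' : ∀ δ < lam.ord, δ ≠ 0 → (∀ α < δ, ∃ β ∈ E, α < β ∧ β < δ) → δ ∈ E)
    (h : ∀ δ ∈ E, δ < lam.ord → ℵ₀ < δ.cof → δ.cof ≤ 𝔠 → GoodPt f δ ∨ EubPt f δ) :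
    ∃ f' : Ordinal.{0} → ℕ → Ordinal.{0}, EubScale κ lam f' := by
  obtain ⟨c, hc, hle, hcE⟩ := exists_enum S.lreg hE hE'
  have S' : Scale κ lam (fun α => f (c α)) := by
    refine ⟨S.reg, S.mono, S.unc, S.lreg, S.lt_lam, fun α hα => S.mem _ (hcE α hα).1,
      fun α β hαβ hβ => S.inc _ _ (hc.strictMono hαβ) (hcE β hβ).1, fun g hg => ?_⟩
    obtain ⟨α, hα, h1⟩ := S.cof g hg
    refine ⟨α, hα, ?_⟩
    rcases (hle α).eq_or_lt with h2 | h2
    · rw [← h2]
      exact h1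
    · filter_upwards [h1, S.inc _ _ h2 (hcE α hα).1] with m hm hm'
      exact hm.trans hm'
  refine ⟨_, S'.toEubScale fun δ hδ hcof hcof' => Or.inr ?_⟩
  have hlim : Order.IsSuccLimit δ := by
    rw [← Ordinal.one_lt_cof_iff]
    exact one_lt_aleph0.trans hcof
  have h1 : (c δ).cof = δ.cof := cof_map_of_isNormal hc hlim
  have h2 : EubPt f (c δ) := by
    rcases h (c δ) (hcE δ hδ).2 (hcE δ hδ).1 (by rwa [h1]) (by rwa [h1]) with h3 | h3
    · exact h3.eubPt S (hcE δ hδ).1 (by rwa [h1])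
    · exact h3
  obtain ⟨v, hv, hv'⟩ := h2
  refine ⟨v, hv, fun g => (hv' g).trans ⟨?_, ?_⟩⟩
  · rintro ⟨β, hβ, h3⟩
    obtain ⟨η, hη, h4⟩ := (hc.lt_iff_exists_lt hlim).1 hβ
    refine ⟨η, hη, ?_⟩
    filter_upwards [h3, S.inc _ _ h4 (hcE η (hη.trans hδ)).1] with m hm hm'
    exact hm.trans hm'
  · rintro ⟨η, hη, h3⟩
    exact ⟨c η, hc.strictMono hη, h3⟩

end Pool.Agent.Lib.MP_473540_gt
end
end
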